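import Pool.Agent.Q258.BC.Mid

/-!
# The function of the middle letters has constant sums over shuffles
-/

set_option autoImplicit false

namespace Pool.Agent.Q258.BC

theorem nodup_insert {A B L : List ℤ} (hA : (A ++ L).Nodup) (hB : B.Nodup)
    (h : ∀ x ∈ A ++ L, ∀ y ∈ B, x < y) : ((A ++ B) ++ L).Nodup := by
  have hp : ((A ++ B) ++ L).Perm ((A ++ L) ++ B) := by
    rw [List.append_assoc, List.append_assoc]
    exact (List.perm_append_comm (l₁ := B) (l₂ := L)).append_left A
  rw [hp.nodup_iff, List.nodup_append]
  exact ⟨hA, hB, fun x hx y hy hxy => by have := h x hx y hy; omega⟩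

/-- insertion sums determine a function which does not depend on the last letter -/
theorem ins (L : List ℤ) (h : List ℤ → ℚ) (k : ℕ)
    (hi : ∀ (α : List ℤ) (q q' : ℤ), α.length = k → ((α ++ [q]) ++ L).Nodup →
      ((α ++ [q']) ++ L).Nodup → h (α ++ [q]) = h (α ++ [q']))
    (hii : ∀ (y : ℤ) (a a' : List ℤ), a.length = k → a'.length = k →
      (([y] ++ a) ++ L).Nodup → (([y] ++ a') ++ L).Nodup → S h [y] a = S h [y] a') :
    ∀ w w' : List ℤ, w.length = k + 1 → w'.length = k + 1 → (w ++ L).Nodup → (w' ++ L).Nodup →
      h w = h w' := by
  have claim : ∀ j, 1 ≤ j → ∀ α γ γ' : List ℤ, γ.length = j → γ'.length = j →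
      α.length + j = k + 1 → ((α ++ γ) ++ L).Nodup → ((α ++ γ') ++ L).Nodup →
      h (α ++ γ) = h (α ++ γ') := by
    intro j hj
    induction j, hj using Nat.le_induction with
    | base =>
      intro α γ γ' h1 h2 h3 h4 h5
      obtain ⟨q, rfl⟩ := List.length_eq_one_iff.mp h1
      obtain ⟨q', rfl⟩ := List.length_eq_one_iff.mp h2
      exact hi α q q' (by omega) h4 h5
    | succ j hj ih =>
      intro α γ γ' h1 h2 h3 h4 h5
      obtain ⟨q, γ1, rfl⟩ : ∃ q γ1, γ = q :: γ1 := by
        cases γ with
        | nil => simp at h1
        | cons q γ1 => exact ⟨q, γ1, rfl⟩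
      obtain ⟨q', γ1', rfl⟩ : ∃ q γ1, γ' = q :: γ1 := by
        cases γ' with
        | nil => simp at h2
        | cons q γ1 => exact ⟨q, γ1, rfl⟩
      simp only [List.length_cons, Nat.add_right_cancel_iff] at h1 h2
      set m := ub (q :: q' :: (α ++ L)) with hm
      have hmq : q < m := lt_ub (by simp)
      have hmq' : q' < m := lt_ub (by simp)
      have hmα : ∀ l ∈ α, l < m := fun l hl => lt_ub (by simp [hl])
      have hmL : ∀ l ∈ L, l < m := fun l hl => lt_ub (by simp [hl])
      set β := fr m (j - 1) with hβ
      set y : ℤ := m + j with hy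
      have hβm : ∀ l ∈ β, m ≤ l ∧ l < y := by
        intro l hl
        have := mem_fr hl
        omega
      have hβl : β.length = j - 1 := length_fr _ _
      have hyβ : (y :: β).Nodup := nodup_cons_lt (nodup_fr _ _) (fun l hl => (hβm l hl).2)
      -- words which start with `α`
      have hαL : (α ++ L).Nodup := by
        refine List.Nodup.sublist ?_ h4
        apply List.Sublist.append_right
        exact List.sublist_append_left _ _
      have hαq : ((α ++ [q]) ++ L).Nodup := by
        refine List.Nodup.sublist ?_ h4
        apply List.Sublist.append_right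
        apply List.Sublist.append_left
        simp
      have hαq' : ((α ++ [q']) ++ L).Nodup := by
        refine List.Nodup.sublist ?_ h5
        apply List.Sublist.append_right
        apply List.Sublist.append_left
        simp
      have hlt : ∀ c, c < m → ∀ x ∈ (α ++ [c]) ++ L, x < m := by
        intro c hc x hx
        simp only [List.mem_append, List.mem_singleton] at hx
        rcases hx with (hx | rfl) | hx
        · exact hmα x hx
        · exact hc
        · exact hmL x hx
      have hnd : ∀ c, c < m → ((α ++ [c]) ++ L).Nodup → ∀ B : List ℤ, B.Perm (y :: β) →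
          (((α ++ [c]) ++ B) ++ L).Nodup := by
        intro c hc hcn B hB
        apply nodup_insert hcn (hB.nodup_iff.mpr hyβ)
        intro x hx l hl
        have h6 := hlt c hc x hx
        have h7 := hB.mem_iff.mp hl
        rcases List.mem_cons.mp h7 with rfl | h7
        · omega
        · have := (hβm l h7).1; omega
      -- the value at `α q y β`
      have e1 : ∀ c, c < m → ((α ++ [c]) ++ L).Nodup → ∀ w : List ℤ, w.length = j →
          (((α ++ [c]) ++ w) ++ L).Nodup → h (α ++ c :: w) = h (α ++ c :: (y :: β)) := by
        intro c hc hcn w hw hwn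
        have e : ∀ t : List ℤ, α ++ c :: t = (α ++ [c]) ++ t := by intro t; simp
        rw [e w, e (y :: β)]
        apply ih _ _ _ hw (by simp [hβl]; omega) (by simp; omega) hwn
        exact hnd c hc hcn _ (List.Perm.refl _)
      have e2 : ∀ c, c < m → ((α ++ [c]) ++ L).Nodup →
          S h [y] (α ++ c :: β) = S (fun w => h (w ++ c :: β)) [y] α +
            j * h (α ++ c :: (y :: β)) := by
        intro c hc hcn
        rw [S_insert_split]
        congr 1
        have : S (fun w => h (α ++ c :: w)) [y] β =
            S (fun _ => h (α ++ c :: (y :: β))) [y] β := by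
          apply S_congr
          intro w hw
          apply e1 c hc hcn w
          · rw [hw.length_eq]; simp [hβl]; omega
          · exact hnd c hc hcn w (by simpa using hw)
        rw [this, S_const]
        have h8 : ([y] : List ℤ).length + β.length = j := by simp [hβl]; omega
        rw [h8]
        simp
      have e3 : S (fun w => h (w ++ q :: β)) [y] α = S (fun w => h (w ++ q' :: β)) [y] α := by
        apply S_congr
        intro w hw
        have hnw : ∀ c, c < m → ((α ++ [c]) ++ L).Nodup → ((w ++ c :: β) ++ L).Nodup := by
          intro c hc hcn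
          have h9 := hnd c hc hcn (y :: β) (List.Perm.refl _)
          have hp : ((w ++ c :: β) ++ L).Perm (((α ++ [c]) ++ (y :: β)) ++ L) := by
            apply List.Perm.append_right
            have h10 : (w ++ c :: β).Perm ((y :: α) ++ c :: β) := by
              apply List.Perm.append_right
              simpa using hw
            refine h10.trans ?_
            have h11 : ((α ++ [c]) ++ (y :: β)).Perm (y :: ((α ++ [c]) ++ β)) :=
              List.perm_middle
            refine List.Perm.trans ?_ h11.symm
            simp
          exact hp.nodup_iff.mpr h9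
        apply ih w (q :: β) (q' :: β)
        · simp [hβl]; omega
        · simp [hβl]; omega
        · rw [hw.length_eq]; simp; omega
        · exact hnw q hmq hαq
        · exact hnw q' hmq' hαq'
      have hny : ∀ c, c < m → ((α ++ [c]) ++ L).Nodup → (([y] ++ (α ++ c :: β)) ++ L).Nodup := by
        intro c hc hcn
        have h9 := hnd c hc hcn (y :: β) (List.Perm.refl _)
        have hp : (([y] ++ (α ++ c :: β)) ++ L).Perm (((α ++ [c]) ++ (y :: β)) ++ L) := by
          apply List.Perm.append_right
          have h11 : ((α ++ [c]) ++ (y :: β)).Perm (y :: ((α ++ [c]) ++ β)) :=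
            List.perm_middle
          refine List.Perm.trans ?_ h11.symm
          simp
        exact hp.nodup_iff.mpr h9
      have e4 := hii y (α ++ q :: β) (α ++ q' :: β) (by simp [hβl]; omega) (by simp [hβl]; omega)
        (hny q hmq hαq) (hny q' hmq' hαq')
      rw [e2 q hmq hαq, e2 q' hmq' hαq', e3] at e4
      have e5 : (j : ℚ) * h (α ++ q :: (y :: β)) = j * h (α ++ q' :: (y :: β)) := by linarith
      have hj0 : (j : ℚ) ≠ 0 := by
        have : j ≠ 0 := by omega
        exact_mod_cast this
      have e6 := mul_left_cancel₀ hj0 e5
      have e : ∀ (c : ℤ) (t : List ℤ), α ++ c :: t = (α ++ [c]) ++ t := by intro c t; simp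
      rw [e1 q hmq hαq γ1 h1 (by rw [← e]; exact h4), e6,
        ← e1 q' hmq' hαq' γ1' h2 (by rw [← e]; exact h5)]
  intro w w' h1 h2 h3 h4
  exact claim (k + 1) (by omega) [] w w' h1 h2 (by simp) h3 h4

/-- the sums over the shuffles do not depend on the first word -/
theorem T_indep {n : ℕ} {F : List ℤ → ℚ} (g : Good n F) (ha : Asc n F) (hn : 3 ≤ n) :
    ∀ k, 1 ≤ k → ∀ c a a' : List ℤ, a.length = k → a'.length = k → c ≠ [] →
      k + c.length + 2 = n → (a ++ c).Nodup → (a' ++ c).Nodup →
      S (G F) a c = S (G F) a' c := by
  intro k hk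
  induction k, hk using Nat.le_induction with
  | base =>
    intro c a a' h1 h2 hc hl h3 h4
    obtain ⟨q, rfl⟩ := List.length_eq_one_iff.mp h1
    obtain ⟨q', rfl⟩ := List.length_eq_one_iff.mp h2
    rw [S_comm, S_comm _ [q']]
    exact T_last g ha hn c [] q q' hc (by simp; omega)
      (by rw [List.nil_append]; exact (List.perm_append_comm.nodup_iff).mpr h3)
      (by rw [List.nil_append]; exact (List.perm_append_comm.nodup_iff).mpr h4)
  | succ k hk ih =>
    intro c a a' h1 h2 hc hl h3 h4
    refine ins c (fun w => S (G F) w c) k ?_ ?_ a a' h1 h2 h3 h4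
    · intro α q q' hα h5 h6
      show S (G F) (α ++ [q]) c = S (G F) (α ++ [q']) c
      rw [S_comm, S_comm _ (α ++ [q'])]
      exact T_last g ha hn c α q q' hc (by omega)
        ((List.perm_append_comm.nodup_iff).mpr h5)
        ((List.perm_append_comm.nodup_iff).mpr h6)
    · intro y b b' hb hb' h5 h6
      rw [S_comm, S_comm _ [y] b', S_assoc, S_assoc]
      apply S_congr
      intro w hw
      have hp : ∀ b : List ℤ, (b ++ w).Perm (([y] ++ b) ++ c) := by
        intro b
        have h7 : (b ++ w).Perm (b ++ ([y] ++ c)) := hw.append_left b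
        refine h7.trans ?_
        rw [List.append_assoc]
        simp only [List.singleton_append]
        exact List.perm_middle
      apply ih w b b' hb hb'
      · intro h; subst h
        have := hw.length_eq
        simp at this
      · rw [hw.length_eq]; simp; omega
      · exact (hp b).nodup_iff.mpr h5
      · exact (hp b').nodup_iff.mpr h6

theorem G_shc {n : ℕ} {F : List ℤ → ℚ} (g : Good n F) (ha : Asc n F) (hn : 3 ≤ n) :
    ShC (n - 2) (G F) := by
  intro p q p' q' hp hq hl h1 h2 h3 h4
  have hp0 := List.length_pos_iff.mpr hp
  have hq0 := List.length_pos_iff.mpr hq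
  have hp' : p' ≠ [] := by
    intro h; subst h; simp at h1; omega
  have hq' : q' ≠ [] := by
    intro h; subst h; simp at h2; omega
  have key : ∀ r s : List ℤ, ∀ m : ℤ, r.length = p.length → s.length = q.length →
      (r ++ s).Nodup → (∀ l ∈ r ++ s, l < m) →
      S (G F) r s = S (G F) (fr (m + p.length) q.length) (fr m p.length) := by
    intro r s m hr hs hrs hlt
    have hs0 : s ≠ [] := by
      intro h; subst h; simp at hs; omega
    have e1 : S (G F) r s = S (G F) (fr m p.length) s := by
      apply T_indep g ha hn p.length (by omega) s r _ hr (length_fr _ _) hs0 (by omega) hrs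
      rw [List.perm_append_comm.nodup_iff]
      apply nodup_append_fr _ (hrs.sublist (List.sublist_append_right _ _))
      intro l hl; exact hlt l (by simp [hl])
    rw [e1, S_comm]
    apply T_indep g ha hn q.length (by omega) (fr m p.length) s _ hs (length_fr _ _)
      (fr_ne_nil _ (by omega)) (by rw [length_fr]; omega)
    · apply nodup_append_fr _ (hrs.sublist (List.sublist_append_right _ _))
      intro l hl; exact hlt l (by simp [hl])
    · rw [List.perm_append_comm.nodup_iff]
      apply nodup_append_fr _ (nodup_fr _ _)
      intro l hl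
      exact (mem_fr hl).2
  set m := ub ((p ++ q) ++ (p' ++ q')) with hm
  rw [key p q m rfl rfl h3 (fun l hl => lt_ub (List.mem_append_left _ hl)),
    key p' q' m h1 h2 h4 (fun l hl => lt_ub (List.mem_append_right _ hl))]

/-- the constants -/
theorem data {n : ℕ} {F : List ℤ → ℚ} (g : Good n F) (ha : Asc n F) (hn : 6 ≤ n) :
    ∃ (φ κ : ℚ) (J K : ℤ), n * φ = J ∧ 0 < J ∧ J < n ∧ (n - 2) * κ = K ∧
      (∀ (u v : List ℤ) (M : ℤ), 2 ≤ u.length → 2 ≤ v.length → u.length + v.length + 1 = n →
        (u ++ v).Nodup → (∀ l ∈ u ++ v, l < M) →
        F (u ++ M :: v) = φ + (-1) ^ u.length * ((n - 1).choose u.length : ℕ) * (κ - φ)) ∧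
      (∀ (x : ℤ) (v : List ℤ) (M : ℤ), v.length + 2 = n → (x :: v).Nodup →
        (∀ l ∈ x :: v, l < M) → F (x :: M :: v) = J - K - G F v) := by
  obtain ⟨φ, ⟨J, hJ, hJ0, hJn⟩, hO⟩ := g.mean (by omega)
  obtain ⟨κ, hκ⟩ := (G_shc g ha (by omega)).binom (by omega)
  have hcast : ((n - 2 : ℕ) : ℚ) = (n : ℚ) - 2 := by
    rw [Nat.cast_sub (by omega)]; norm_num
  obtain ⟨K, hK⟩ : ∃ K : ℤ, ((n : ℚ) - 2) * κ = K := by
    have h1 := hκ [0] (fr 1 (n - 3)) (by simp) (fr_ne_nil _ (by omega))
      (by simp [length_fr]; omega) (nodup_append_fr [0] (by simp) 1 (by simp) _)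
    have h2 : ∀ w : List ℤ, w.Perm ([0] ++ fr 1 (n - 3)) → G F w = 0 ∨ G F w = 1 := by
      intro w hw
      apply G_zo g
      · rw [hw.length_eq]; simp [length_fr]; omega
      · rw [hw.nodup_iff]; exact nodup_append_fr [0] (by simp) 1 (by simp) _
    obtain ⟨z, hz⟩ := S_int (G F) [0] (fr 1 (n - 3)) h2
    refine ⟨z, ?_⟩
    rw [← hz, h1]
    simp only [List.length_singleton, Nat.choose_one_right, hcast]
  refine ⟨φ, κ, J, K, hJ, hJ0, hJn, hK, ?_, ?_⟩
  · intro u v M hu hv hl hnd hM
    have hu0 : u ≠ [] := by intro h; subst h; simp at hu
    have hv0 : v ≠ [] := by intro h; subst h; simp at hv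
    have h1 := F_max g ha (by omega) φ hO u v M hu0 hv0 hl hnd hM
    have hut : u.tail.length = u.length - 1 := List.length_tail
    have hvt : v.dropLast.length = v.length - 1 := List.length_dropLast
    have h2 : S (G F) u.tail.reverse v = ((n - 2).choose (u.length - 1) : ℕ) * κ := by
      rw [hκ u.tail.reverse v]
      · rw [List.length_reverse, hut]
      · intro h
        have := congrArg List.length h
        rw [List.length_reverse, hut] at this
        simp at this; omega
      · exact hv0
      · rw [List.length_reverse, hut]; omega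
      · have hs : (u.tail ++ v).Nodup := hnd.sublist ((List.tail_sublist u).append_right v)
        exact ((List.reverse_perm _).append_right v).nodup_iff.mpr hs
    have h3 : S (G F) u.reverse v.dropLast = ((n - 2).choose u.length : ℕ) * κ := by
      rw [hκ u.reverse v.dropLast]
      · rw [List.length_reverse]
      · simpa using hu0
      · intro h
        have := congrArg List.length h
        rw [hvt] at this
        simp at this; omega
      · rw [List.length_reverse, hvt]; omega
      · have hs : (u ++ v.dropLast).Nodup := hnd.sublist ((List.dropLast_sublist v).append_left u)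
        exact ((List.reverse_perm _).append_right _).nodup_iff.mpr hs
    rw [S_sub, S_sub, S_const, S_const, h2, h3] at h1
    have e1 : u.tail.reverse.length + v.length = n - 2 := by
      rw [List.length_reverse, hut]; omega
    have e2 : u.reverse.length + v.dropLast.length = n - 2 := by
      rw [List.length_reverse, hvt]; omega
    have e3 : u.tail.reverse.length = u.length - 1 := by rw [List.length_reverse, hut]
    rw [e1, e2, e3, List.length_reverse] at h1
    have e4 : (n - 1).choose u.length = (n - 2).choose (u.length - 1) + (n - 2).choose u.length := by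
      have h5 : n - 1 = (n - 2) + 1 := by omega
      have h6 : u.length = (u.length - 1) + 1 := by omega
      rw [h5, h6, Nat.choose_succ_succ]
      simp
    rw [e4]
    push_cast
    linear_combination h1
  · intro x v M hl hnd hM
    have hv0 : v ≠ [] := by
      intro h; subst h; simp at hl; omega
    have h1 := F_max g ha (by omega) φ hO [x] v M (by simp) hv0 (by simp; omega)
      (by simpa using hnd) (by simpa using hM)
    have hvt : v.dropLast.length = v.length - 1 := List.length_dropLast
    simp only [List.tail_cons, List.reverse_nil, S_nil_left, List.length_singleton, pow_one,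
      List.reverse_singleton, List.singleton_append] at h1
    have h3 : S (G F) [x] v.dropLast = ((n - 2 : ℕ) : ℚ) * κ := by
      rw [hκ [x] v.dropLast]
      · simp
      · simp
      · intro h
        have := congrArg List.length h
        rw [hvt] at this
        simp at this; omega
      · rw [hvt]; simp; omega
      · have hs : ([x] ++ v.dropLast).Nodup := by
          apply List.Nodup.sublist _ hnd
          exact (List.dropLast_sublist v).cons_cons x
        exact hs
    rw [S_sub, S_const, h3, hvt] at h1
    have e1 : ([x] : List ℤ).length + (v.length - 1) = n - 2 := by simp; omega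
    rw [e1] at h1
    simp only [List.length_singleton, Nat.choose_one_right, hcast] at h1
    rw [← hJ, ← hK]
    linear_combination h1

end Pool.Agent.Q258.BC
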