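import Pool.Agent.Q258.BC.Lie

/-!
# The indicator of a class of a bicompatible statistic at the least nonconstant length: constants,
reversal and the dichotomy
-/

set_option autoImplicit false

namespace Pool.Agent.Q258.BC

/-! ### upper bounds and fresh letters -/

/-- a number larger than all letters -/
def ub (w : List ℤ) : ℤ := w.foldr max 0 + 1

theorem lt_ub {w : List ℤ} {x : ℤ} (hx : x ∈ w) : x < ub w := by
  unfold ub
  induction w with
  | nil => simp at hx
  | cons a w ih =>
    simp only [List.foldr_cons]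
    rcases List.mem_cons.mp hx with rfl | h
    · have := le_max_left x (w.foldr max 0); omega
    · have h1 := ih h
      have := le_max_right a (w.foldr max 0); omega

/-- the word `m, m + 1, ..., m + k - 1` -/
def fr (m : ℤ) (k : ℕ) : List ℤ := (List.range k).map (fun i : ℕ => m + i)

theorem length_fr (m : ℤ) (k : ℕ) : (fr m k).length = k := by simp [fr]

theorem mem_fr {m : ℤ} {k : ℕ} {x : ℤ} (hx : x ∈ fr m k) : m ≤ x ∧ x < m + k := by
  simp only [fr, List.mem_map, List.mem_range] at hx
  obtain ⟨i, hi, rfl⟩ := hx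
  omega

theorem nodup_fr (m : ℤ) (k : ℕ) : (fr m k).Nodup := by
  unfold fr
  rw [List.nodup_map_iff_inj_on List.nodup_range]
  intro x _ y _ h
  simpa using h

theorem fr_ne_nil (m : ℤ) {k : ℕ} (hk : k ≠ 0) : fr m k ≠ [] := by
  intro h
  have := congrArg List.length h
  rw [length_fr] at this
  exact hk this

theorem nodup_append_fr (w : List ℤ) (hw : w.Nodup) (m : ℤ) (hm : ∀ x ∈ w, x < m) (k : ℕ) :
    (w ++ fr m k).Nodup := by
  rw [List.nodup_append]
  refine ⟨hw, nodup_fr m k, ?_⟩
  intro x hx y hy h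
  have h1 := hm x hx
  have h2 := (mem_fr hy).1
  omega

theorem nodup_cons_lt {w : List ℤ} {x : ℤ} (hw : w.Nodup) (h : ∀ y ∈ w, y < x) :
    (x :: w).Nodup :=
  List.nodup_cons.mpr ⟨fun hx => lt_irrefl _ (h x hx), hw⟩

/-! ### shuffle sums which depend only on the lengths -/

/-- the sum over the shuffles depends only on the lengths -/
def ShC (m : ℕ) (H : List ℤ → ℚ) : Prop := ∀ p q p' q' : List ℤ, p ≠ [] → q ≠ [] →
  p.length + q.length = m → p'.length = p.length → q'.length = q.length → (p ++ q).Nodup →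
  (p' ++ q').Nodup → S H p q = S H p' q'

theorem ShC.binom {m : ℕ} {H : List ℤ → ℚ} (h : ShC m H) (hm : 2 ≤ m) :
    ∃ c : ℚ, ∀ p q : List ℤ, p ≠ [] → q ≠ [] → p.length + q.length = m → (p ++ q).Nodup →
      S H p q = (m.choose p.length : ℕ) * c := by
  have hm0 : (m : ℚ) ≠ 0 := by
    have : m ≠ 0 := by omega
    exact_mod_cast this
  refine ⟨S H [0] (fr 1 (m - 1)) / m, ?_⟩
  have h01 : ([0] ++ fr 1 (m - 1)).Nodup :=
    nodup_append_fr [0] (by simp) 1 (by simp) _
  intro p q hp hq hl hnd
  obtain ⟨k, hk⟩ : ∃ k, p.length = k + 1 := by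
    have := List.length_pos_iff.mpr hp
    exact ⟨p.length - 1, by omega⟩
  have hq0 := List.length_pos_iff.mpr hq
  have key := S_assoc H [0] (fr 1 k) (fr (k + 1) (m - k - 1))
  have hnd2 : (([0] ++ fr 1 k) ++ fr (k + 1) (m - k - 1)).Nodup := by
    apply nodup_append_fr
    · exact nodup_append_fr [0] (by simp) 1 (by simp) _
    · intro x hx
      rcases List.mem_append.mp hx with hx | hx
      · simp at hx; omega
      · have := (mem_fr hx).2; omega
  have e1 : S (fun w => S H w (fr (k + 1) (m - k - 1))) [0] (fr 1 k) =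
      S (fun _ => S H p q) [0] (fr 1 k) := by
    apply S_congr
    intro w hw
    symm
    apply h p q _ _ hp hq hl
    · rw [hw.length_eq]; simp [length_fr]; omega
    · rw [length_fr]; omega
    · exact hnd
    · exact ((hw.append_right _).nodup_iff).mpr hnd2
  have e2 : S (fun w => S H [0] w) (fr 1 k) (fr (k + 1) (m - k - 1)) =
      S (fun _ => S H [0] (fr 1 (m - 1))) (fr 1 k) (fr (k + 1) (m - k - 1)) := by
    apply S_congr
    intro w hw
    symm
    apply h _ _ _ _ (by simp) (fr_ne_nil _ (by omega))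
    · simp [length_fr]; omega
    · rfl
    · rw [hw.length_eq]; simp [length_fr]; omega
    · exact h01
    · have h1 : ([0] ++ w).Perm ([0] ++ (fr 1 k ++ fr (k + 1) (m - k - 1))) := hw.append_left _
      rw [h1.nodup_iff, ← List.append_assoc]
      exact hnd2
  rw [e1, e2, S_const, S_const, length_fr, length_fr] at key
  have hc : (m : ℕ) * (m - 1).choose k = m.choose (k + 1) * (k + 1) := by
    have := Nat.add_one_mul_choose_eq (m - 1) k
    have h1 : m - 1 + 1 = m := by omega
    rwa [h1] at this
  have hc' : (m : ℚ) * ((m - 1).choose k : ℕ) = (m.choose (k + 1) : ℕ) * (k + 1) := by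
    exact_mod_cast hc
  have h3 : k + (m - k - 1) = m - 1 := by omega
  have h4 : ([0] : List ℤ).length + k = k + 1 := by simp; omega
  rw [h3, h4] at key
  simp only [List.length_singleton, Nat.choose_one_right] at key
  push_cast at key
  rw [hk]
  have hk1 : ((k : ℚ) + 1) ≠ 0 := by positivity
  have : ((k : ℚ) + 1) * S H p q = ((k : ℚ) + 1) * ((m.choose (k + 1) : ℕ) *
      (S H [0] (fr 1 (m - 1)) / m)) := by
    rw [key]
    field_simp
    linear_combination (S H [0] (fr 1 (m - 1))) * hc'
  exact mul_left_cancel₀ hk1 this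

theorem append_mem_shuf {α : Type} (u v : List α) : u ++ v ∈ shuf u v := by
  refine two_ind (P := fun u v => u ++ v ∈ shuf u v) ?_ ?_ ?_ u v
  · intro v; simp [shuf_nil_left]
  · intro v; simp [shuf_nil_right]
  · intro a u b v h1 _
    rw [shuf_cons_cons, List.mem_append, List.mem_map]
    exact Or.inl ⟨_, h1, rfl⟩

theorem le_S {α : Type} (H : List α → ℚ) (u v : List α)
    (h : ∀ w, w.Perm (u ++ v) → 0 ≤ H w) : H (u ++ v) ≤ S H u v := by
  unfold S
  apply List.single_le_sum
  · intro x hx
    rw [List.mem_map] at hx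
    obtain ⟨w, hw, rfl⟩ := hx
    exact h w (perm_of_mem_shuf u v w hw)
  · exact List.mem_map_of_mem (append_mem_shuf u v)

theorem S_int {α : Type} (H : List α → ℚ) (u v : List α)
    (h : ∀ w, w.Perm (u ++ v) → H w = 0 ∨ H w = 1) : ∃ z : ℤ, S H u v = z := by
  unfold S
  have h' : ∀ w ∈ shuf u v, H w = 0 ∨ H w = 1 := fun w hw => h w (perm_of_mem_shuf u v w hw)
  revert h'
  generalize shuf u v = l
  intro h'
  induction l with
  | nil => exact ⟨0, by simp⟩
  | cons a l ih =>
    obtain ⟨z, hz⟩ := ih (fun w hw => h' w (List.mem_cons_of_mem _ hw))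
    rcases h' a (List.mem_cons_self) with h1 | h1
    · exact ⟨z, by simp [h1, hz]⟩
    · exact ⟨1 + z, by simp [h1, hz]⟩

/-! ### the setting -/

/-- the properties of the indicator `F` of a class at the least nonconstant length `n` of a
bicompatible statistic -/
structure Good (n : ℕ) (F : List ℤ → ℚ) : Prop where
  zo : ∀ w, w.length = n → w.Nodup → F w = 0 ∨ F w = 1
  inv : ∀ (w : List ℤ) (f : ℤ → ℤ), w.length = n → w.Nodup →
    (∀ x ∈ w, ∀ y ∈ w, x < y → f x < f y) → F (w.map f) = F w
  sh : ∀ (Φ : ℚ → ℚ → ℚ) (a b m : ℕ), a + n ≤ m → b + n ≤ m → ∀ p q p' q' : List ℤ,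
    p.length + q.length = m → p'.length = p.length → q'.length = q.length →
    (p ++ q).Nodup → (p' ++ q').Nodup → (p.length < n ∨ p = p') → (q.length < n ∨ q = q') →
    S (fun w => Φ (F ((w.drop a).take n)) (F ((w.drop b).take n))) p q =
      S (fun w => Φ (F ((w.drop a).take n)) (F ((w.drop b).take n))) p' q'
  one : ∃ w, w.length = n ∧ w.Nodup ∧ F w = 1
  zero : ∃ w, w.length = n ∧ w.Nodup ∧ F w = 0

theorem Good.neg {n : ℕ} {F : List ℤ → ℚ} (g : Good n F) :
    Good n (fun w => F (w.map (fun x => -x))) := by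
  have hnn : ∀ w : List ℤ, (w.map (fun x => -x)).map (fun x => -x) = w := by
    intro w; rw [List.map_map]; simp
  have hnd : ∀ w : List ℤ, w.Nodup → (w.map (fun x => -x)).Nodup := fun w hw =>
    hw.map neg_injective
  refine ⟨?_, ?_, ?_, ?_, ?_⟩
  · intro w hl hw
    exact g.zo _ (by simpa using hl) (hnd w hw)
  · intro w f hl hw hf
    have h1 : (w.map f).map (fun x => -x) = (w.map (fun x => -x)).map (fun x => - f (-x)) := by
      rw [List.map_map, List.map_map]; simp [Function.comp_def]
    show F ((w.map f).map (fun x => -x)) = _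
    rw [h1]
    apply g.inv _ _ (by simpa using hl) (hnd w hw)
    intro x hx y hy hxy
    rw [List.mem_map] at hx hy
    obtain ⟨a, ha, rfl⟩ := hx
    obtain ⟨b, hb, rfl⟩ := hy
    have := hf b hb a ha (by omega)
    simp only [neg_neg]
    omega
  · intro Φ a b m ha hb p q p' q' h1 h2 h3 h4 h5 h6 h7
    have key := g.sh Φ a b m ha hb (p.map (fun x => -x)) (q.map (fun x => -x))
      (p'.map (fun x => -x)) (q'.map (fun x => -x)) (by simpa using h1) (by simpa using h2)
      (by simpa using h3) (by rw [← List.map_append]; exact hnd _ h4)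
      (by rw [← List.map_append]; exact hnd _ h5)
      (by
        rcases h6 with h | h
        · left; simpa using h
        · right; rw [h])
      (by
        rcases h7 with h | h
        · left; simpa using h
        · right; rw [h])
    rw [S_map, S_map] at key
    simp only [← List.map_drop, ← List.map_take] at key
    exact key
  · obtain ⟨w, h1, h2, h3⟩ := g.one
    refine ⟨w.map (fun x => -x), by simpa using h1, hnd w h2, ?_⟩
    simp only [hnn]; exact h3
  · obtain ⟨w, h1, h2, h3⟩ := g.zero
    refine ⟨w.map (fun x => -x), by simpa using h1, hnd w h2, ?_⟩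
    simp only [hnn]; exact h3

theorem Good.compl {n : ℕ} {F : List ℤ → ℚ} (g : Good n F) : Good n (fun w => 1 - F w) := by
  refine ⟨?_, ?_, ?_, ?_, ?_⟩
  · intro w hl hw
    rcases g.zo w hl hw with h | h
    · right; simp [h]
    · left; simp [h]
  · intro w f hl hw hf
    show 1 - F (w.map f) = 1 - F w
    rw [g.inv w f hl hw hf]
  · intro Φ a b m ha hb p q p' q' h1 h2 h3 h4 h5 h6 h7
    exact g.sh (fun x y => Φ (1 - x) (1 - y)) a b m ha hb p q p' q' h1 h2 h3 h4 h5 h6 h7
  · obtain ⟨w, h1, h2, h3⟩ := g.zero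
    exact ⟨w, h1, h2, by simp [h3]⟩
  · obtain ⟨w, h1, h2, h3⟩ := g.one
    exact ⟨w, h1, h2, by simp [h3]⟩

theorem Good.shc {n : ℕ} {F : List ℤ → ℚ} (g : Good n F) : ShC n F := by
  intro p q p' q' hp hq hl h1 h2 h3 h4
  have hp0 := List.length_pos_iff.mpr hp
  have hq0 := List.length_pos_iff.mpr hq
  have key := g.sh (fun x _ => x) 0 0 n (by omega) (by omega) p q p' q' hl h1 h2 h3 h4
    (Or.inl (by omega)) (Or.inl (by omega))
  simp only [List.drop_zero] at key
  have e1 : S (fun w => F (w.take n)) p q = S F p q := by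
    apply S_congr
    intro w hw
    rw [List.take_of_length_le]
    rw [hw.length_eq]; simp; omega
  have e2 : S (fun w => F (w.take n)) p' q' = S F p' q' := by
    apply S_congr
    intro w hw
    rw [List.take_of_length_le]
    rw [hw.length_eq]; simp; omega
  rw [e1, e2] at key
  exact key

/-- the mean value `φ` of `F` -/
theorem Good.mean {n : ℕ} {F : List ℤ → ℚ} (g : Good n F) (hn : 2 ≤ n) :
    ∃ φ : ℚ, (∃ J : ℤ, n * φ = J ∧ 0 < J ∧ J < n) ∧
      Orth n (fun w => F w - φ) := by
  obtain ⟨c, hc⟩ := g.shc.binom hn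
  refine ⟨c, ?_, ?_⟩
  · have hcons : ∀ w : List ℤ, w.length = n → w.Nodup → ∃ x v, w = x :: v ∧ v ≠ [] ∧
        S F [x] v = n * c := by
      intro w hl hw
      cases w with
      | nil => simp at hl; omega
      | cons x v =>
        have hv : v ≠ [] := by
          intro h; subst h; simp at hl; omega
        refine ⟨x, v, rfl, hv, ?_⟩
        have := hc [x] v (by simp) hv (by simp at hl ⊢; omega) (by simpa using hw)
        simpa using this
    obtain ⟨w, hl, hw, hw1⟩ := g.one
    obtain ⟨x, v, rfl, hv, hS⟩ := hcons w hl hw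
    have hperm : ∀ t : List ℤ, t.Perm ([x] ++ v) → t.length = n ∧ t.Nodup := by
      intro t ht
      exact ⟨by rw [ht.length_eq]; simpa using hl, ht.nodup_iff.mpr (by simpa using hw)⟩
    obtain ⟨J, hJ⟩ := S_int F [x] v (fun t ht => g.zo t (hperm t ht).1 (hperm t ht).2)
    refine ⟨J, by rw [← hS, hJ], ?_, ?_⟩
    · have h1 := le_S F [x] v (fun t ht => by
        rcases g.zo t (hperm t ht).1 (hperm t ht).2 with h | h <;> rw [h] <;> norm_num)
      have h2 : F ([x] ++ v) = 1 := hw1
      rw [h2, hJ] at h1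
      have : (0 : ℚ) < (J : ℚ) := by linarith
      exact_mod_cast this
    · obtain ⟨w', hl', hw', hw0⟩ := g.zero
      obtain ⟨x', v', rfl, hv', hS'⟩ := hcons w' hl' hw'
      have hperm' : ∀ t : List ℤ, t.Perm ([x'] ++ v') → t.length = n ∧ t.Nodup := by
        intro t ht
        exact ⟨by rw [ht.length_eq]; simpa using hl', ht.nodup_iff.mpr (by simpa using hw')⟩
      have h1 := le_S (fun t => 1 - F t) [x'] v' (fun t ht => by
        rcases g.zo t (hperm' t ht).1 (hperm' t ht).2 with h | h <;> rw [h] <;> norm_num)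
      rw [S_sub, S_const, hS'] at h1
      have h2 : F ([x'] ++ v') = 0 := hw0
      rw [h2] at h1
      have h3 : ([x'] : List ℤ).length + v'.length = n := by simp at hl' ⊢; omega
      rw [h3] at h1
      simp only [List.length_singleton, Nat.choose_one_right] at h1
      rw [← hS, hJ] at h1
      have : (J : ℚ) < (n : ℤ) := by push_cast; linarith
      exact_mod_cast this
  · intro p q hp hq hl hnd
    rw [S_sub, S_const, hc p q hp hq hl hnd, hl]
    ring

end Pool.Agent.Q258.BC
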