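import Pool.Agent.Q258.BC.Seven

/-!
# No indicator exists
-/

set_option autoImplicit false

namespace Pool.Agent.Q258.BC

set_option maxRecDepth 100000 in
theorem cnt_ne (θ : Bool) : cnt θ [0, 1, 2] [3, 4, 5, 6, 7, 8] ≠
    cnt θ [2, 1, 0] [3, 4, 5, 6, 7, 8] := by
  cases θ <;> decide

theorem Sev.contra {F : List ℤ → ℚ} (s : Sev F) : False := by
  obtain ⟨θ, hθ⟩ : ∃ θ : Bool, hq F [0, 1, 2] = b2q θ := by
    have h1 : hq F [0, 1, 2] = 0 ∨ hq F [0, 1, 2] = 1 := by
      apply G_zo s.good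
      · simp
      · apply nodup_cons_lt
        · apply nodup_cons_lt (by decide)
          intro y hy; exact lt_ub hy
        · intro y hy; exact lt_ub hy
    rcases h1 with h | h
    · exact ⟨false, by rw [h]; simp [b2q]⟩
    · exact ⟨true, by rw [h]; simp [b2q]⟩
  have key := s.good.sh (fun x y => x * y) 0 2 9 (by norm_num) (by norm_num)
    [0, 1, 2] [3, 4, 5, 6, 7, 8] [2, 1, 0] [3, 4, 5, 6, 7, 8] (by simp) (by simp) (by simp)
    (by decide) (by decide) (Or.inl (by simp)) (Or.inl (by simp))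
  rw [s.cnt_ok θ hθ _ _ (by simp) (by decide), s.cnt_ok θ hθ _ _ (by simp) (by decide)] at key
  exact cnt_ne θ (by exact_mod_cast key)

theorem Good.contra_of_asc {n : ℕ} {F : List ℤ → ℚ} (g : Good n F) (ha : Asc n F) (hn : 6 ≤ n) :
    False := by
  obtain ⟨rfl, a, ha01, k2, k3, k4, k1⟩ := numbers g ha hn
  rcases ha01 with rfl | rfl
  · exact Sev.contra ⟨g, ha, k1, k2, fun u v M h1 h2 h3 h4 => by
      rw [k3 u v M h1 h2 h3 h4]; norm_num, k4⟩
  · have ha' : Asc 7 (fun w => 1 - F w) := by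
      intro u p q x x' h1 h2 h3 h4
      show 1 - F _ = 1 - F _
      rw [ha u p q x x' h1 h2 h3 h4]
    refine Sev.contra (F := fun w => 1 - F w) ⟨g.compl, ha', ?_, ?_, ?_, ?_⟩
    · intro x v M h1 h2 h3
      show 1 - F _ = 1 - G (fun w => 1 - F w) v
      rw [k1 x v M h1 h2 h3]
      rfl
    · intro u v M h1 h2 h3 h4
      show 1 - F _ = 0
      rw [k2 u v M h1 h2 h3 h4]; norm_num
    · intro u v M h1 h2 h3 h4
      show 1 - F _ = 1
      rw [k3 u v M h1 h2 h3 h4]; norm_num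
    · intro u v M h1 h2 h3 h4
      show 1 - F _ = 0
      rw [k4 u v M h1 h2 h3 h4]; norm_num

theorem Good.contra {n : ℕ} {F : List ℤ → ℚ} (g : Good n F) (hn : 6 ≤ n) : False := by
  rcases dichotomy g (by omega) with h | h
  · exact g.contra_of_asc h hn
  · exact g.neg.contra_of_asc h hn

end Pool.Agent.Q258.BC
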