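import Pool.Agent.Q258.BC.Sh

/-!
# Alternating sums over shuffles of reversed initial parts with final parts
-/

set_option autoImplicit false

namespace Pool.Agent.Q258.BC

variable {α : Type}

/-- the part of the sum with the shuffles which start with the first letter of the first word -/
def S1 (H : List α → ℚ) : List α → List α → ℚ
  | [], _ => 0
  | x :: p, q => S (fun w => H (x :: w)) p q

theorem S_eq_S1 (H : List α → ℚ) (p q : List α) (h : p ≠ [] ∨ q ≠ []) :
    S H p q = S1 H p q + S1 H q p := by
  cases p with
  | nil =>
    cases q with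
    | nil => simp at h
    | cons y q => simp [S1, S_nil_left, S_nil_right]
  | cons x p =>
    cases q with
    | nil => simp [S1, S_nil_right]
    | cons y q =>
      rw [S_cons_cons, S1, S1, S_comm _ q (x :: p)]

/-- the alternating sum -/
def E (H : List α → ℚ) : List α → List α → List α → ℚ
  | a, [], z => S H a z
  | a, b :: u, z => S H a (b :: u ++ z) - E H (b :: a) u z

theorem E_eq (H : List α → ℚ) (u a z : List α) (h : a ≠ [] ∨ u ≠ [] ∨ z ≠ []) :
    E H a u z = S1 H a (u ++ z) + (-1) ^ u.length * S1 H z (u.reverse ++ a) := by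
  induction u generalizing a with
  | nil =>
    have h' : a ≠ [] ∨ z ≠ [] := by simpa using h
    rw [E, S_eq_S1 H a z h']
    simp
  | cons b u ih =>
    rw [E, ih (b :: a) (Or.inl (by simp)), S_eq_S1 H a (b :: u ++ z) (Or.inr (by simp))]
    have h1 : S1 H (b :: u ++ z) a = S (fun w => H (b :: w)) (u ++ z) a := rfl
    have h2 : S1 H (b :: a) (u ++ z) = S (fun w => H (b :: w)) a (u ++ z) := rfl
    rw [h1, h2, S_comm _ (u ++ z) a, List.length_cons, pow_succ]
    have h3 : (b :: u).reverse ++ a = u.reverse ++ b :: a := by simp
    rw [h3]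
    ring

theorem E_sum (H : List α → ℚ) (u a : List α) :
    E H a u [] = ∑ i ∈ Finset.range (u.length + 1),
      (-1) ^ i * S H ((u.take i).reverse ++ a) (u.drop i) := by
  induction u generalizing a with
  | nil => simp [E, S_nil_right]
  | cons b u ih =>
    rw [E, ih, List.length_cons, Finset.sum_range_succ' (n := u.length + 1)]
    simp only [pow_succ, List.take_succ_cons, List.drop_succ_cons, List.reverse_cons,
      List.append_assoc, List.singleton_append, pow_zero, List.take_zero, List.drop_zero,
      List.reverse_nil, List.nil_append, List.append_nil, one_mul]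
    rw [sub_eq_add_neg, add_comm, ← Finset.sum_neg_distrib]
    congr 1
    apply Finset.sum_congr rfl
    intro i _
    ring

/-- the alternating sum over all cuts of a word is zero -/
theorem alt_sum (H : List α → ℚ) (w : List α) (hw : w ≠ []) :
    ∑ i ∈ Finset.range (w.length + 1), (-1) ^ i * S H (w.take i).reverse (w.drop i) = 0 := by
  have h := E_sum H w []
  simp only [List.append_nil] at h
  rw [← h, E_eq H w [] [] (Or.inr (Or.inl hw))]
  simp [S1]

/-- `P` vanishes on the proper shuffles of the words of length `n` without repeated letters -/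
def Orth (n : ℕ) (P : List α → ℚ) : Prop :=
  ∀ p q : List α, p ≠ [] → q ≠ [] → p.length + q.length = n → (p ++ q).Nodup → S P p q = 0

theorem E_orth {n : ℕ} {P : List α → ℚ} (hP : Orth n P) (u a z : List α) (ha : a ≠ [])
    (hz : z ≠ []) (hn : a.length + u.length + z.length = n) (hnd : (a ++ u ++ z).Nodup) :
    E P a u z = 0 := by
  induction u generalizing a with
  | nil =>
    rw [E]
    apply hP a z ha hz
    · simpa using hn
    · simpa using hnd
  | cons b u ih =>
    rw [E, ih (b :: a) (by simp)]
    · rw [hP a (b :: u ++ z) ha (by simp)]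
      · simp
      · rw [← hn]; simp; ring
      · simpa [List.append_assoc] using hnd
    · rw [← hn]; simp; ring
    · have : (b :: a ++ u ++ z).Perm (a ++ b :: u ++ z) := by
        have h1 : (b :: (a ++ (u ++ z))).Perm (a ++ b :: (u ++ z)) :=
          (List.perm_middle (a := b) (l₁ := a) (l₂ := u ++ z)).symm
        simpa [List.append_assoc] using h1
      exact (this.nodup_iff).mpr hnd

/-- the expansion at a letter `x` -/
theorem expand {n : ℕ} {P : List α → ℚ} (hP : Orth n P) (u : List α) (x : α) (v : List α)
    (hn : u.length + v.length + 1 = n) (hnd : (u ++ x :: v).Nodup) :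
    P (u ++ x :: v) = (-1) ^ u.length * S (fun w => P (x :: w)) u.reverse v := by
  have h1 := E_eq P u [] (x :: v) (Or.inr (Or.inr (by simp)))
  have h2 : E P [] u (x :: v) = P (u ++ x :: v) := by
    cases u with
    | nil => simp [E, S_nil_left]
    | cons b u =>
      rw [E, E_orth hP u [b] (x :: v) (by simp) (by simp)]
      · simp [S_nil_left]
      · rw [← hn]; simp; ring
      · simpa using hnd
  rw [← h2, h1]
  simp only [S1, List.append_nil, zero_add]
  rw [S_comm]

/-- the value at the reversed word -/
theorem orth_reverse {n : ℕ} {P : List α → ℚ} (hP : Orth n P) (hn : 0 < n) (w : List α)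
    (hw : w.length = n) (hnd : w.Nodup) : P w.reverse = - (-1) ^ n * P w := by
  have hne : w ≠ [] := by
    intro h; subst h; simp at hw; omega
  have h := alt_sum P w hne
  rw [hw, Finset.sum_range_succ] at h
  obtain ⟨k, rfl⟩ : ∃ k, n = k + 1 := ⟨n - 1, by omega⟩
  rw [Finset.sum_range_succ'] at h
  have h0 : ∑ i ∈ Finset.range k, (-1 : ℚ) ^ (i + 1) *
      S P (w.take (i + 1)).reverse (w.drop (i + 1)) = 0 := by
    apply Finset.sum_eq_zero
    intro i hi
    rw [Finset.mem_range] at hi
    rw [hP]
    · ring
    · intro h1
      have h2 := congrArg List.length h1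
      simp [hw] at h2
    · intro h1
      have h2 := congrArg List.length h1
      simp [hw] at h2
      omega
    · simp [hw]; omega
    · have : ((w.take (i + 1)).reverse ++ w.drop (i + 1)).Perm w := by
        have h1 : ((w.take (i + 1)).reverse ++ w.drop (i + 1)).Perm
          (w.take (i + 1) ++ w.drop (i + 1)) := (List.reverse_perm _).append_right _
        rwa [List.take_append_drop] at h1
      exact this.nodup_iff.mpr hnd
  rw [h0] at h
  have e1 : w.take (k + 1) = w := List.take_of_length_le (by omega)
  have e2 : w.drop (k + 1) = [] := List.drop_of_length_le (by omega)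
  rw [e1, e2] at h
  simp only [pow_zero, List.take_zero, List.reverse_nil, List.drop_zero, one_mul, S_nil_left,
    S_nil_right, zero_add] at h
  have h3 : ((-1 : ℚ) ^ (k + 1)) * ((-1 : ℚ) ^ (k + 1)) = 1 := by
    rw [← mul_pow]; simp
  calc P w.reverse = ((-1 : ℚ) ^ (k + 1)) * (((-1 : ℚ) ^ (k + 1)) * P w.reverse) := by
        rw [← mul_assoc, h3, one_mul]
    _ = ((-1 : ℚ) ^ (k + 1)) * (- P w) := by
        congr 1; linarith
    _ = _ := by ring

end Pool.Agent.Q258.BC
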