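import Pool.Agent.Q258.BC.Typ

/-!
# The function of the middle letters
-/

set_option autoImplicit false

namespace Pool.Agent.Q258.BC

theorem asc' {n : ℕ} {F : List ℤ → ℚ} (ha : Asc n F) (y : List ℤ) (x x' z : ℤ) (hy : y ≠ [])
    (hl : y.length + 2 = n) (hz : ∀ t b, y = t ++ [b] → b < z) (h1 : (x :: (y ++ [z])).Nodup)
    (h2 : (x' :: (y ++ [z])).Nodup) : F (x :: (y ++ [z])) = F (x' :: (y ++ [z])) := by
  obtain ⟨t, b, rfl⟩ := (List.eq_nil_or_concat' y).resolve_left hy
  have e : (t ++ [b]) ++ [z] = t ++ [b, z] := by simp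
  rw [e] at h1 h2 ⊢
  exact ha t b z x x' (by simp at hl; omega) (hz t b rfl) h1 h2

theorem des' {n : ℕ} {F : List ℤ → ℚ} (g : Good n F) (ha : Asc n F) (y : List ℤ) (x z z' : ℤ)
    (hy : y ≠ []) (hl : y.length + 2 = n) (hx : ∀ a t, y = a :: t → a < x)
    (h1 : (x :: (y ++ [z])).Nodup) (h2 : (x :: (y ++ [z'])).Nodup) :
    F (x :: (y ++ [z])) = F (x :: (y ++ [z'])) := by
  obtain ⟨φ, -, hO⟩ := g.mean (by omega)
  cases y with
  | nil => exact absurd rfl hy
  | cons a t =>
    have key : ∀ c : ℤ, (x :: (a :: t ++ [c])).Nodup →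
        F (x :: (a :: t ++ [c])) = φ - (-1) ^ n * (F (c :: (t.reverse ++ [a, x])) - φ) := by
      intro c hc
      have h3 := orth_reverse hO (by omega) (c :: (t.reverse ++ [a, x]))
        (by simp at hl ⊢; omega)
        (by
          have : (c :: (t.reverse ++ [a, x])) = (x :: (a :: t ++ [c])).reverse := by simp
          rw [this, List.nodup_reverse]
          exact hc)
      have e : (c :: (t.reverse ++ [a, x])).reverse = x :: (a :: t ++ [c]) := by simp
      rw [e] at h3
      linear_combination h3
    rw [key z h1, key z' h2]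
    have h5 : ∀ c : ℤ, (x :: (a :: t ++ [c])).Nodup → (c :: (t.reverse ++ [a, x])).Nodup := by
      intro c hc
      have : (c :: (t.reverse ++ [a, x])) = (x :: (a :: t ++ [c])).reverse := by simp
      rw [this, List.nodup_reverse]
      exact hc
    rw [ha t.reverse a x z z' (by simp at hl ⊢; omega) (hx a t rfl) (h5 z h1) (h5 z' h2)]

/-- the value of `F` at a word which starts with a descent or ends with an ascent, as a function of
the middle letters -/
def G (F : List ℤ → ℚ) (y : List ℤ) : ℚ := F ((ub y + 1) :: (y ++ [ub y]))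

theorem nodup_mid {y : List ℤ} {x z : ℤ} (h : (x :: (y ++ [z])).Nodup) : y.Nodup :=
  (List.nodup_append.mp (List.nodup_cons.mp h).2).1

theorem nodup_ends {y : List ℤ} {x z : ℤ} (hy : y.Nodup) (hx : x ∉ y) (hz : z ∉ y) (h : x ≠ z) :
    (x :: (y ++ [z])).Nodup := by
  rw [List.nodup_cons, List.nodup_append]
  refine ⟨?_, hy, by simp, ?_⟩
  · simp [hx, h]
  · intro a ha b hb
    simp only [List.mem_singleton] at hb
    subst hb
    rintro rfl
    exact hz ha

theorem G_eq {n : ℕ} {F : List ℤ → ℚ} (g : Good n F) (ha : Asc n F) (y : List ℤ) (x z : ℤ)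
    (hy : y ≠ []) (hl : y.length + 2 = n) (h1 : (x :: (y ++ [z])).Nodup)
    (h : (∀ a t, y = a :: t → a < x) ∨ (∀ t b, y = t ++ [b] → b < z)) :
    F (x :: (y ++ [z])) = G F y := by
  have hyn := nodup_mid h1
  have hxy : x ∉ y := fun hx => (List.nodup_cons.mp h1).1 (by simp [hx])
  have hzy : z ∉ y := by
    intro hz
    have := (List.nodup_append.mp (List.nodup_cons.mp h1).2).2.2 z hz z (by simp)
    exact this rfl
  set Z := ub (x :: z :: (ub y + 1) :: ub y :: y) with hZ
  have hZx : x < Z := lt_ub (by simp)
  have hZz : z < Z := lt_ub (by simp)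
  have hZA : ub y + 1 < Z := lt_ub (by simp)
  have hZB : ub y < Z := lt_ub (by simp)
  have hZy : ∀ l ∈ y, l < Z := fun l hl => lt_ub (by simp [hl])
  have hBy : ∀ l ∈ y, l < ub y := fun l hl => lt_ub hl
  have hZy' : Z ∉ y := fun h => lt_irrefl _ (hZy Z h)
  have hBy' : ub y ∉ y := fun h => lt_irrefl _ (hBy _ h)
  have hAy' : ub y + 1 ∉ y := fun h => by have := hBy _ h; omega
  unfold G
  rcases h with h | h
  · rw [des' g ha y x z Z hy hl h h1 (nodup_ends hyn hxy hZy' (by omega)),
      asc' ha y x (ub y + 1) Z hy hl (fun t b hb => hZy b (by simp [hb]))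
        (nodup_ends hyn hxy hZy' (by omega)) (nodup_ends hyn hAy' hZy' (by omega)),
      des' g ha y (ub y + 1) Z (ub y) hy hl
        (fun a t hb => by have := hBy a (by simp [hb]); omega)
        (nodup_ends hyn hAy' hZy' (by omega)) (nodup_ends hyn hAy' hBy' (by omega))]
  · rw [asc' ha y x Z z hy hl h h1 (nodup_ends hyn hZy' hzy (by omega)),
      des' g ha y Z z (ub y) hy hl (fun a t hb => hZy a (by simp [hb]))
        (nodup_ends hyn hZy' hzy (by omega)) (nodup_ends hyn hZy' hBy' (by omega)),
      asc' ha y Z (ub y + 1) (ub y) hy hl (fun t b hb => hBy b (by simp [hb]))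
        (nodup_ends hyn hZy' hBy' (by omega)) (nodup_ends hyn hAy' hBy' (by omega))]

theorem G_zo {n : ℕ} {F : List ℤ → ℚ} (g : Good n F) (y : List ℤ)
    (hl : y.length + 2 = n) (h1 : y.Nodup) : G F y = 0 ∨ G F y = 1 := by
  apply g.zo
  · simp; omega
  · apply nodup_ends h1
    · intro h; have := lt_ub h; omega
    · intro h; have := lt_ub h; omega
    · omega

/-- the value at a word whose first letter is the largest one -/
theorem F_first {n : ℕ} {F : List ℤ → ℚ} (g : Good n F) (ha : Asc n F) (hn : 3 ≤ n) (M : ℤ)
    (w : List ℤ) (hl : w.length + 1 = n) (hw : w.Nodup) (hM : ∀ l ∈ w, l < M) :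
    F (M :: w) = G F w.dropLast := by
  have hne : w ≠ [] := by
    intro h; subst h; simp at hl; omega
  obtain ⟨y, z, rfl⟩ := (List.eq_nil_or_concat' w).resolve_left hne
  have hy : y ≠ [] := by
    intro h; subst h; simp at hl; omega
  rw [List.dropLast_concat]
  apply G_eq g ha y M z hy (by simp at hl ⊢; omega)
  · exact nodup_cons_lt hw hM
  · left
    intro a t hb
    exact hM a (by simp [hb])

/-- the value at a word with a given position of the largest letter -/
theorem F_max {n : ℕ} {F : List ℤ → ℚ} (g : Good n F) (ha : Asc n F) (hn : 3 ≤ n) (φ : ℚ)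
    (hO : Orth n (fun w => F w - φ)) (u v : List ℤ) (M : ℤ) (hu : u ≠ []) (hv : v ≠ [])
    (hl : u.length + v.length + 1 = n) (hnd : (u ++ v).Nodup) (hM : ∀ l ∈ u ++ v, l < M) :
    F (u ++ M :: v) - φ = (-1) ^ u.length *
      (S (fun w => G F w - φ) u.tail.reverse v + S (fun w => G F w - φ) u.reverse v.dropLast) := by
  have hnd2 : (u ++ M :: v).Nodup := by
    have h1 : (u ++ M :: v).Perm (M :: (u ++ v)) := List.perm_middle
    rw [h1.nodup_iff]
    exact nodup_cons_lt hnd hM
  have h1 := expand hO u M v hl hnd2
  rw [h1]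
  congr 1
  have h2 : S (fun w => F (M :: w) - φ) u.reverse v =
      S (fun w => G F w.dropLast - φ) u.reverse v := by
    apply S_congr
    intro w hw
    have hp : w.Perm (u ++ v) := hw.trans ((List.reverse_perm u).append_right v)
    rw [F_first g ha hn M w (by rw [hp.length_eq]; simpa using hl) (hp.nodup_iff.mpr hnd)
      (fun l hl' => hM l (hp.mem_iff.mp hl'))]
  rw [h2, S_dropLast (fun w => G F w - φ) u.reverse v (by simpa using hu) hv,
    List.dropLast_reverse]

/-- the sum over the shuffles does not depend on the last letter -/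
theorem T_last {n : ℕ} {F : List ℤ → ℚ} (g : Good n F) (ha : Asc n F) (hn : 3 ≤ n)
    (a b : List ℤ) (z z' : ℤ) (hane : a ≠ []) (hl : a.length + b.length + 3 = n)
    (h1 : (a ++ (b ++ [z])).Nodup) (h2 : (a ++ (b ++ [z'])).Nodup) :
    S (G F) a (b ++ [z]) = S (G F) a (b ++ [z']) := by
  obtain ⟨φ, -, hO⟩ := g.mean (by omega)
  set U := ub (z :: z' :: (a ++ b)) with hU
  have hUz : z < U := lt_ub (by simp)
  have hUz' : z' < U := lt_ub (by simp)
  have hUa : ∀ l ∈ a, l < U := fun l hl => lt_ub (by simp [hl])
  have hUb : ∀ l ∈ b, l < U := fun l hl => lt_ub (by simp [hl])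
  have key : ∀ c : ℤ, c < U → (a ++ (b ++ [c])).Nodup →
      F (U :: ((a.reverse ++ (U + 1) :: b) ++ [c])) - φ = (-1) ^ (a.length + 1) *
        (S (G F) a (b ++ [c]) - ((a.length + b.length + 1).choose a.length : ℕ) * φ +
          S (fun w => G F w - φ) (a ++ [U]) b) := by
    intro c hc hnd
    have e1 : U :: ((a.reverse ++ (U + 1) :: b) ++ [c]) =
        (U :: a.reverse) ++ (U + 1) :: (b ++ [c]) := by simp
    have hlt : ∀ l ∈ a ++ (b ++ [c]), l < U := by
      intro l hl'
      simp only [List.mem_append, List.mem_singleton] at hl'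
      rcases hl' with h | h | rfl
      · exact hUa l h
      · exact hUb l h
      · exact hc
    have hp : ((U :: a.reverse) ++ (b ++ [c])).Perm (U :: (a ++ (b ++ [c]))) := by
      simp only [List.cons_append]
      exact ((List.reverse_perm a).append_right _).cons U
    rw [e1, F_max g ha hn φ hO (U :: a.reverse) (b ++ [c]) (U + 1) (by simp) (by simp)
      (by simp; omega) (by rw [hp.nodup_iff]; exact nodup_cons_lt hnd hlt)
      (by
        intro l hl'
        rcases List.mem_cons.mp (hp.mem_iff.mp hl') with rfl | h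
        · omega
        · have := hlt l h; omega)]
    simp only [List.tail_cons, List.reverse_reverse, List.reverse_cons, List.dropLast_concat,
      List.length_cons, List.length_reverse]
    rw [S_sub (G F) (fun _ => φ) a (b ++ [c]), S_const]
    simp only [List.length_append, List.length_singleton]
    rw [← add_assoc]
  have hd := des' g ha (a.reverse ++ (U + 1) :: b) U z z' (by simp) (by simp; omega)
    (by
      intro c t hct
      cases har : a.reverse with
      | nil => exact absurd (List.reverse_eq_nil_iff.mp har) hane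
      | cons d s =>
        rw [har] at hct
        simp only [List.cons_append, List.cons.injEq] at hct
        rw [← hct.1]
        apply hUa
        have : d ∈ a.reverse := by rw [har]; simp
        simpa using this)
    (by
      have hp : (U :: ((a.reverse ++ (U + 1) :: b) ++ [z])).Perm
          ((U + 1) :: U :: (a ++ (b ++ [z]))) := by
        have h3 : ((a.reverse ++ (U + 1) :: b) ++ [z]).Perm ((U + 1) :: (a ++ (b ++ [z]))) := by
          simp only [List.append_assoc, List.cons_append]
          exact List.perm_middle.trans (((List.reverse_perm a).append_right _).cons _)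
        exact (h3.cons U).trans (List.Perm.swap _ _ _)
      rw [hp.nodup_iff]
      have hlt : ∀ l ∈ a ++ (b ++ [z]), l < U := by
        intro l hl'
        simp only [List.mem_append, List.mem_singleton] at hl'
        rcases hl' with h | h | rfl
        · exact hUa l h
        · exact hUb l h
        · exact hUz
      apply nodup_cons_lt (nodup_cons_lt h1 hlt)
      intro l hl'
      rcases List.mem_cons.mp hl' with rfl | h
      · omega
      · have := hlt l h; omega)
    (by
      have hp : (U :: ((a.reverse ++ (U + 1) :: b) ++ [z'])).Perm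
          ((U + 1) :: U :: (a ++ (b ++ [z']))) := by
        have h3 : ((a.reverse ++ (U + 1) :: b) ++ [z']).Perm ((U + 1) :: (a ++ (b ++ [z']))) := by
          simp only [List.append_assoc, List.cons_append]
          exact List.perm_middle.trans (((List.reverse_perm a).append_right _).cons _)
        exact (h3.cons U).trans (List.Perm.swap _ _ _)
      rw [hp.nodup_iff]
      have hlt : ∀ l ∈ a ++ (b ++ [z']), l < U := by
        intro l hl'
        simp only [List.mem_append, List.mem_singleton] at hl'
        rcases hl' with h | h | rfl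
        · exact hUa l h
        · exact hUb l h
        · exact hUz'
      apply nodup_cons_lt (nodup_cons_lt h2 hlt)
      intro l hl'
      rcases List.mem_cons.mp hl' with rfl | h
      · omega
      · have := hlt l h; omega)
  have k1 := key z hUz h1
  have k2 := key z' hUz' h2
  rw [hd, k2] at k1
  have hp : ((-1 : ℚ) ^ (a.length + 1)) ≠ 0 := by
    apply pow_ne_zero; norm_num
  have := mul_left_cancel₀ hp k1
  linarith

end Pool.Agent.Q258.BC
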