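import Pool.Agent.Q258.BC.Const

/-!
# The length is seven
-/

set_option autoImplicit false

namespace Pool.Agent.Q258.BC

theorem numbers {n : ℕ} {F : List ℤ → ℚ} (g : Good n F) (ha : Asc n F) (hn : 6 ≤ n) :
    n = 7 ∧ ∃ a : ℚ, (a = 0 ∨ a = 1) ∧
      (∀ (u v : List ℤ) (M : ℤ), u.length = 2 → v.length = 4 →
        (u ++ v).Nodup → (∀ l ∈ u ++ v, l < M) → F (u ++ M :: v) = a) ∧
      (∀ (u v : List ℤ) (M : ℤ), u.length = 3 → v.length = 3 →
        (u ++ v).Nodup → (∀ l ∈ u ++ v, l < M) → F (u ++ M :: v) = 1 - a) ∧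
      (∀ (u v : List ℤ) (M : ℤ), u.length = 4 → v.length = 2 →
        (u ++ v).Nodup → (∀ l ∈ u ++ v, l < M) → F (u ++ M :: v) = a) ∧
      (∀ (x : ℤ) (v : List ℤ) (M : ℤ), v.length = 5 → (x :: v).Nodup →
        (∀ l ∈ x :: v, l < M) → F (x :: M :: v) = 1 - G F v) := by
  obtain ⟨φ, κ, J, K, hJ, hJ0, hJn, hK, hF, hF1⟩ := data g ha hn
  have hndw : ∀ k l : ℕ, k + l + 1 = n → (fr 0 k ++ fr k l).Nodup ∧
      (∀ x ∈ fr 0 k ++ fr k l, x < (n : ℤ)) := by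
    intro k l hkl
    refine ⟨nodup_append_fr _ (nodup_fr _ _) _ ?_ _, ?_⟩
    · intro x hx; have := (mem_fr hx).2; omega
    · intro x hx
      rcases List.mem_append.mp hx with hx | hx
      · have := (mem_fr hx).2; omega
      · have := (mem_fr hx).2; omega
  have hval : ∀ k l : ℕ, k + l + 1 = n → ∃ a : ℤ, (a = 0 ∨ a = 1) ∧
      F (fr 0 k ++ (n : ℤ) :: fr k l) = a := by
    intro k l hkl
    have h1 := hndw k l hkl
    have hp : (fr 0 k ++ (n : ℤ) :: fr k l).Perm ((n : ℤ) :: (fr 0 k ++ fr k l)) :=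
      List.perm_middle
    rcases g.zo (fr 0 k ++ (n : ℤ) :: fr k l) (by simp [length_fr]; omega)
      (by rw [hp.nodup_iff]; exact nodup_cons_lt h1.1 h1.2) with h | h
    · exact ⟨0, Or.inl rfl, by simpa using h⟩
    · exact ⟨1, Or.inr rfl, by simpa using h⟩
  obtain ⟨a, ha01, hav⟩ := hval 2 (n - 3) (by omega)
  obtain ⟨b, hb01, hbv⟩ := hval 3 (n - 4) (by omega)
  have e1 := hF (fr 0 2) (fr (2 : ℕ) (n - 3)) n (by simp [length_fr]) (by simp [length_fr]; omega)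
    (by simp [length_fr]; omega) (hndw 2 (n - 3) (by omega)).1 (hndw 2 (n - 3) (by omega)).2
  have e2 := hF (fr 0 3) (fr (3 : ℕ) (n - 4)) n (by simp [length_fr]) (by simp [length_fr]; omega)
    (by simp [length_fr]; omega) (hndw 3 (n - 4) (by omega)).1 (hndw 3 (n - 4) (by omega)).2
  rw [hav, length_fr] at e1
  rw [hbv, length_fr] at e2
  have hc1 : (((n - 1 : ℕ) : ℚ)) = (n : ℚ) - 1 := by
    rw [Nat.cast_sub (by omega)]; norm_num
  have hc2 : (((n - 2 : ℕ) : ℚ)) = (n : ℚ) - 2 := by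
    rw [Nat.cast_sub (by omega)]; norm_num
  have h2 : (((n - 1).choose 2 : ℕ) : ℚ) = ((n : ℚ) - 1) * ((n : ℚ) - 2) / 2 := by
    rw [Nat.cast_choose_two, hc1]; ring
  have h3 : (((n - 1).choose 3 : ℕ) : ℚ) = ((n : ℚ) - 1) * ((n : ℚ) - 2) * ((n : ℚ) - 3) / 6 := by
    have h4 := Nat.add_one_mul_choose_eq (n - 2) 2
    have h5 : n - 2 + 1 = n - 1 := by omega
    rw [h5] at h4
    have h6 : (((n - 1 : ℕ) : ℚ)) * ((n - 2).choose 2 : ℕ) = ((n - 1).choose 3 : ℕ) * 3 := by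
      exact_mod_cast h4
    rw [Nat.cast_choose_two, hc1, hc2] at h6
    linarith
  rw [h2] at e1
  rw [h3] at e2
  have q1 : 2 * (a : ℚ) = - J * (n - 3) + (n - 1) * K := by
    rw [e1, ← hJ, ← hK]; ring
  have q2 : 6 * (b : ℚ) = J * ((n : ℚ) ^ 2 - 6 * n + 11) - K * (n - 1) * (n - 3) := by
    rw [e2, ← hJ, ← hK]; ring
  have z1 : 2 * a = - J * ((n : ℤ) - 3) + ((n : ℤ) - 1) * K := by exact_mod_cast q1
  have z2 : 6 * b = J * ((n : ℤ) ^ 2 - 6 * n + 11) - K * ((n : ℤ) - 1) * ((n : ℤ) - 3) := by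
    exact_mod_cast q2
  have z3 : 2 * J = 2 * (3 * b + a * ((n : ℤ) - 3)) := by
    linear_combination (-1 : ℤ) * z2 - ((n : ℤ) - 3) * z1
  have hn' : (6 : ℤ) ≤ n := by exact_mod_cast hn
  have six : ∀ t : ℤ, t * ((n : ℤ) - 1) = 6 → t = 1 ∧ (n : ℤ) = 7 := by
    intro t ht
    have ht0 : 0 < t := by
      by_contra h
      have : t * ((n : ℤ) - 1) ≤ 0 := mul_nonpos_of_nonpos_of_nonneg (by omega) (by omega)
      omega
    have ht1 : t < 2 := by
      by_contra h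
      have : 2 * ((n : ℤ) - 1) ≤ t * ((n : ℤ) - 1) :=
        mul_le_mul_of_nonneg_right (by omega) (by omega)
      omega
    have ht2 : t = 1 := by omega
    subst ht2
    exact ⟨rfl, by omega⟩
  have fin : (a = 0 ∧ b = 1 ∧ J = 3 ∧ K = 2 ∧ (n : ℤ) = 7) ∨
      (a = 1 ∧ b = 0 ∧ J = 4 ∧ K = 3 ∧ (n : ℤ) = 7) := by
    rcases ha01 with rfl | rfl <;> rcases hb01 with rfl | rfl
    · omega
    · left
      have hJ3 : J = 3 := by omega
      subst hJ3
      obtain ⟨h1, h2⟩ := six (3 - K) (by linear_combination z1)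
      exact ⟨rfl, rfl, rfl, by omega, h2⟩
    · right
      have hJ3 : J = (n : ℤ) - 3 := by omega
      subst hJ3
      obtain ⟨h1, h2⟩ := six (K - n + 5) (by linear_combination (-1 : ℤ) * z1)
      exact ⟨rfl, rfl, by omega, by omega, h2⟩
    · have : J = (n : ℤ) := by omega
      omega
  have hn7 : n = 7 := by
    rcases fin with ⟨-, -, -, -, h⟩ | ⟨-, -, -, -, h⟩ <;> exact_mod_cast h
  subst hn7
  refine ⟨rfl, a, ?_, ?_, ?_, ?_, ?_⟩
  · rcases ha01 with rfl | rfl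
    · left; norm_num
    · right; norm_num
  · intro u v M hu hv hnd hM
    rw [hF u v M (by omega) (by omega) (by omega) hnd hM, hu]
    have c2 : ((7 - 1 : ℕ).choose 2 : ℕ) = 15 := by decide
    rw [c2]
    rcases fin with ⟨rfl, rfl, rfl, rfl, -⟩ | ⟨rfl, rfl, rfl, rfl, -⟩ <;>
    · push_cast at hJ hK ⊢
      linarith
  · intro u v M hu hv hnd hM
    rw [hF u v M (by omega) (by omega) (by omega) hnd hM, hu]
    have c3 : ((7 - 1 : ℕ).choose 3 : ℕ) = 20 := by decide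
    rw [c3]
    rcases fin with ⟨rfl, rfl, rfl, rfl, -⟩ | ⟨rfl, rfl, rfl, rfl, -⟩ <;>
    · push_cast at hJ hK ⊢
      linarith
  · intro u v M hu hv hnd hM
    rw [hF u v M (by omega) (by omega) (by omega) hnd hM, hu]
    have c4 : ((7 - 1 : ℕ).choose 4 : ℕ) = 15 := by decide
    rw [c4]
    rcases fin with ⟨rfl, rfl, rfl, rfl, -⟩ | ⟨rfl, rfl, rfl, rfl, -⟩ <;>
    · push_cast at hJ hK ⊢
      linarith
  · intro x v M hv hnd hM
    rw [hF1 x v M (by omega) hnd hM]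
    rcases fin with ⟨rfl, rfl, rfl, rfl, -⟩ | ⟨rfl, rfl, rfl, rfl, -⟩ <;> norm_num

end Pool.Agent.Q258.BC
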