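import Pool.Agent.Q258.BC.Num

/-!
# The length seven is impossible
-/

set_option autoImplicit false

namespace Pool.Agent.Q258.BC

/-! ### order invariance -/

/-- invariance under order isomorphisms -/
def Inv (m : ℕ) (H : List ℤ → ℚ) : Prop := ∀ (w : List ℤ) (f : ℤ → ℤ), w.length = m → w.Nodup →
  (∀ x ∈ w, ∀ y ∈ w, x < y → f x < f y) → H (w.map f) = H w

theorem Inv.cons {m : ℕ} {H : List ℤ → ℚ} (h : Inv (m + 1) H) : Inv m (fun y => H (ub y :: y)) := by
  intro w f hl hw hf
  show H (ub (w.map f) :: w.map f) = H (ub w :: w)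
  have hlt : ∀ l ∈ w, l < ub w := fun l hl => lt_ub hl
  have hlt' : ∀ l ∈ w, f l < ub (w.map f) := fun l hl => lt_ub (List.mem_map_of_mem hl)
  have h1 := h (ub w :: w) (fun l => if l = ub w then ub (w.map f) else f l) (by simp [hl])
    (nodup_cons_lt hw hlt) (by
      intro x hx y hy hxy
      rcases List.mem_cons.mp hx with rfl | hx
      · rcases List.mem_cons.mp hy with rfl | hy
        · omega
        · have := hlt y hy; omega
      · have h1 := hlt x hx
        have h3 : x ≠ ub w := by omega
        rcases List.mem_cons.mp hy with rfl | hy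
        · simp only [h3, if_false, if_true]
          exact hlt' x hx
        · have h2 := hlt y hy
          have h4 : y ≠ ub w := by omega
          simp only [h3, h4, if_false]
          exact hf x hx y hy hxy)
  rw [← h1]
  simp only [List.map_cons, if_true]
  congr 2
  apply List.map_congr_left
  intro l hl
  have := hlt l hl
  have h3 : l ≠ ub w := by omega
  simp [h3]

theorem Inv.chg {m : ℕ} {H : List ℤ → ℚ} (h : Inv m H) (u v : List ℤ) (M M' : ℤ)
    (hl : u.length + v.length + 1 = m) (hnd : (u ++ v).Nodup) (h1 : ∀ l ∈ u ++ v, l < M)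
    (h2 : ∀ l ∈ u ++ v, l < M') : H (u ++ M :: v) = H (u ++ M' :: v) := by
  have hnd2 : (u ++ M' :: v).Nodup := by
    have hp : (u ++ M' :: v).Perm (M' :: (u ++ v)) := List.perm_middle
    rw [hp.nodup_iff]
    exact nodup_cons_lt hnd h2
  have key := h (u ++ M' :: v) (fun l => if l = M' then M else l) (by simp; omega) hnd2 (by
    have hmem : ∀ x ∈ u ++ M' :: v, x = M' ∨ x ∈ u ++ v := by
      intro x hx
      have hp : (u ++ M' :: v).Perm (M' :: (u ++ v)) := List.perm_middle
      exact List.mem_cons.mp (hp.mem_iff.mp hx)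
    intro x hx0 y hy0 hxy
    rcases hmem x hx0 with rfl | hx
    · rcases hmem y hy0 with rfl | hy
      · omega
      · have := h2 y hy; omega
    · have h3 := h2 x hx
      have h4 : x ≠ M' := by omega
      rcases hmem y hy0 with rfl | hy
      · simp only [h4, if_false, if_true]
        exact h1 x hx
      · have h5 := h2 y hy
        have h6 : y ≠ M' := by omega
        simp only [h4, h6, if_false]
        exact hxy)
  rw [← key]
  congr 1
  simp only [List.map_append, List.map_cons, if_true]
  have e : ∀ t : List ℤ, (∀ l ∈ t, l ∈ u ++ v) → t.map (fun l => if l = M' then M else l) = t := by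
    intro t ht
    conv_rhs => rw [← List.map_id t]
    apply List.map_congr_left
    intro l hl
    have h3 := h2 l (ht l hl)
    have h4 : l ≠ M' := by omega
    simp [h4]
  rw [e u (fun l hl => List.mem_append_left _ hl), e v (fun l hl => List.mem_append_right _ hl)]

theorem invG {n : ℕ} {F : List ℤ → ℚ} (g : Good n F) (hn : 2 ≤ n) : Inv (n - 2) (G F) := by
  intro w f hl hw hf
  have hlt : ∀ l ∈ w, l < ub w := fun l hl => lt_ub hl
  have hlt' : ∀ l ∈ w, f l < ub (w.map f) := fun l hl => lt_ub (List.mem_map_of_mem hl)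
  unfold G
  have hnd : ((ub w + 1) :: (w ++ [ub w])).Nodup := by
    apply nodup_ends hw
    · intro h; have := hlt _ h; omega
    · intro h; have := hlt _ h; omega
    · omega
  have key := g.inv ((ub w + 1) :: (w ++ [ub w])) (fun l => if l = ub w then ub (w.map f) else
    if l = ub w + 1 then ub (w.map f) + 1 else f l) (by simp; omega) hnd (by
      have hmem : ∀ x ∈ (ub w + 1) :: (w ++ [ub w]), x = ub w + 1 ∨ x = ub w ∨ x ∈ w := by
        intro x hx
        simp only [List.mem_cons, List.mem_append, List.not_mem_nil, or_false] at hx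
        tauto
      intro x hx y hy hxy
      have a1 : ub w + 1 ≠ ub w := by omega
      rcases hmem x hx with rfl | rfl | hx
      · rcases hmem y hy with rfl | rfl | hy
        · omega
        · omega
        · have := hlt y hy; omega
      · rcases hmem y hy with rfl | rfl | hy
        · simp only [if_true, a1, if_false]; omega
        · omega
        · have := hlt y hy; omega
      · have h3 := hlt x hx
        have h4 : x ≠ ub w := by omega
        have h5 : x ≠ ub w + 1 := by omega
        have h6 := hlt' x hx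
        rcases hmem y hy with rfl | rfl | hy
        · simp only [if_true, a1, h4, h5, if_false]; omega
        · simp only [if_true, h4, h5, if_false]; omega
        · have h7 := hlt y hy
          have h8 : y ≠ ub w := by omega
          have h9 : y ≠ ub w + 1 := by omega
          simp only [h4, h5, h8, h9, if_false]
          exact hf x hx y hy hxy)
  rw [← key]
  congr 1
  have a1 : ub w + 1 ≠ ub w := by omega
  simp only [List.map_cons, List.map_append, List.map_nil, if_true, a1, if_false]
  congr 2
  apply List.map_congr_left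
  intro l hl
  have h3 := hlt l hl
  have h4 : l ≠ ub w := by omega
  have h5 : l ≠ ub w + 1 := by omega
  simp [h4, h5]

/-! ### the values for the length seven -/

/-- the properties of `F` for the length seven -/
structure Sev (F : List ℤ → ℚ) : Prop where
  good : Good 7 F
  asc : Asc 7 F
  h1 : ∀ (x : ℤ) (v : List ℤ) (M : ℤ), v.length = 5 → (x :: v).Nodup →
    (∀ l ∈ x :: v, l < M) → F (x :: M :: v) = 1 - G F v
  h2 : ∀ (u v : List ℤ) (M : ℤ), u.length = 2 → v.length = 4 →
    (u ++ v).Nodup → (∀ l ∈ u ++ v, l < M) → F (u ++ M :: v) = 0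
  h3 : ∀ (u v : List ℤ) (M : ℤ), u.length = 3 → v.length = 3 →
    (u ++ v).Nodup → (∀ l ∈ u ++ v, l < M) → F (u ++ M :: v) = 1
  h4 : ∀ (u v : List ℤ) (M : ℤ), u.length = 4 → v.length = 2 →
    (u ++ v).Nodup → (∀ l ∈ u ++ v, l < M) → F (u ++ M :: v) = 0

variable {F : List ℤ → ℚ}

theorem Sev.rev (s : Sev F) (w : List ℤ) (hl : w.length = 7) (hw : w.Nodup) :
    F w.reverse = F w := by
  obtain ⟨φ, -, hO⟩ := s.good.mean (by norm_num)
  have := orth_reverse hO (by norm_num) w hl hw
  norm_num at this
  linarith

theorem Sev.Grev (s : Sev F) (y : List ℤ) (hl : y.length = 5) (hy : y.Nodup) :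
    G F y.reverse = G F y := by
  have hlt : ∀ l ∈ y, l < ub y := fun l hl => lt_ub hl
  have hA : ub y ∉ y := fun h => by have := hlt _ h; omega
  have hB : ub y + 1 ∉ y := fun h => by have := hlt _ h; omega
  have hnd : ((ub y + 1) :: (y ++ [ub y])).Nodup := nodup_ends hy hB hA (by omega)
  have h1 := s.rev _ (by simp [hl]) hnd
  have e : ((ub y + 1) :: (y ++ [ub y])).reverse = ub y :: (y.reverse ++ [ub y + 1]) := by simp
  rw [e] at h1
  rw [← G_eq s.good s.asc y.reverse (ub y) (ub y + 1)
    (by intro h; have := congrArg List.length h; simp [hl] at this) (by simp [hl])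
    (by
      apply nodup_ends (List.nodup_reverse.mpr hy)
      · simpa using hA
      · simpa using hB
      · omega)
    (Or.inl (fun a t h => hlt a (by rw [← List.mem_reverse, h]; simp))), h1]
  rfl

theorem exists_lt (w : List ℤ) : ∃ z : ℤ, ∀ l ∈ w, z < l := by
  refine ⟨- ub (w.map (fun x => -x)), ?_⟩
  intro l hl
  have := lt_ub (List.mem_map_of_mem (f := fun x : ℤ => -x) hl)
  omega

/-- the value at the words whose last but one letter is the largest one -/
theorem Sev.h5 (s : Sev F) (u : List ℤ) (M z : ℤ) (hl : u.length = 5) (hnd : (u ++ [z]).Nodup)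
    (hM : ∀ l ∈ u ++ [z], l < M) : F (u ++ M :: [z]) = 1 - G F u := by
  have hnd2 : (z :: u.reverse).Nodup := by
    have hp : (z :: u.reverse).Perm (u ++ [z]) := by
      have : z :: u.reverse = (u ++ [z]).reverse := by simp
      rw [this]; exact List.reverse_perm _
    exact hp.nodup_iff.mpr hnd
  have hM2 : ∀ l ∈ z :: u.reverse, l < M := by
    intro l hl
    apply hM
    simp only [List.mem_cons, List.mem_reverse] at hl
    simp only [List.mem_append, List.mem_singleton]
    tauto
  have h1 := s.h1 z u.reverse M (by simpa using hl) hnd2 hM2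
  have hu : u.Nodup := (List.nodup_append.mp hnd).1
  have e : u ++ M :: [z] = (z :: M :: u.reverse).reverse := by simp
  rw [e, s.rev _ (by simp [hl]), h1, s.Grev u hl hu]
  have hp : (z :: M :: u.reverse).Perm (M :: z :: u.reverse) := List.Perm.swap _ _ _
  rw [hp.nodup_iff]
  exact nodup_cons_lt hnd2 hM2

theorem Sev.Gx (s : Sev F) (a b : ℤ) (t : List ℤ) (M : ℤ) (hl : t.length = 3)
    (hnd : (a :: b :: t).Nodup) (hab : b < a) (hM : ∀ l ∈ a :: b :: t, l < M) :
    G F (a :: b :: t) = 1 - G F (b :: t ++ [M]) := by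
  obtain ⟨z, hz⟩ := exists_lt (M :: a :: b :: t)
  have hzM : z < M := hz M (by simp)
  have hnd1 : ((a :: b :: t) ++ [z]).Nodup := by
    rw [List.nodup_append]
    refine ⟨hnd, by simp, ?_⟩
    intro x hx y hy hxy
    simp only [List.mem_singleton] at hy
    have := hz x (List.mem_cons_of_mem _ hx)
    omega
  have hM1 : ∀ l ∈ (a :: b :: t) ++ [z], l < M := by
    intro l hl
    rcases List.mem_append.mp hl with h | h
    · exact hM l h
    · simp only [List.mem_singleton] at h; omega
  have h1 := s.h5 (a :: b :: t) M z (by simp [hl]) hnd1 hM1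
  have e : (a :: b :: t) ++ M :: [z] = a :: ((b :: t ++ [M]) ++ [z]) := by simp
  have hnd2 : (a :: ((b :: t ++ [M]) ++ [z])).Nodup := by
    rw [← e]
    have hp : ((a :: b :: t) ++ M :: [z]).Perm (M :: ((a :: b :: t) ++ [z])) := List.perm_middle
    rw [hp.nodup_iff]
    exact nodup_cons_lt hnd1 hM1
  have h2 := G_eq s.good s.asc (b :: t ++ [M]) a z (by simp) (by simp [hl]) hnd2
    (Or.inl (fun c r h => by
      simp only [List.cons_append, List.cons.injEq] at h
      rw [← h.1]; exact hab))
  rw [e, h2] at h1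
  linarith

theorem Sev.Gmid (s : Sev F) (u v : List ℤ) (M : ℤ) (hu : u ≠ []) (hl : u.length + v.length = 4)
    (hnd : (u ++ v).Nodup) (hM : ∀ l ∈ u ++ v, l < M) :
    ∃ x z M' : ℤ, ((x :: u) ++ (v ++ [z])).Nodup ∧ (∀ l ∈ (x :: u) ++ (v ++ [z]), l < M') ∧
      G F (u ++ M :: v) = F ((x :: u) ++ M' :: (v ++ [z])) := by
  set x := ub (u ++ v) with hx
  have hlt : ∀ l ∈ u ++ v, l < x := fun l hl => lt_ub hl
  have hp : ∀ a b : ℤ, ((a :: u) ++ (v ++ [b])).Perm (b :: a :: (u ++ v)) := by
    intro a b
    have : (a :: u) ++ (v ++ [b]) = (a :: (u ++ v)) ++ [b] := by simp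
    rw [this]
    exact List.perm_append_singleton _ _
  have hnd1 : ((x :: u) ++ (v ++ [x + 1])).Nodup := by
    rw [(hp _ _).nodup_iff]
    apply nodup_cons_lt (nodup_cons_lt hnd hlt)
    intro l hl
    rcases List.mem_cons.mp hl with rfl | h
    · omega
    · have := hlt l h; omega
  have hM1 : ∀ l ∈ (x :: u) ++ (v ++ [x + 1]), l < x + 2 := by
    intro l hl
    rcases List.mem_cons.mp ((hp _ _).mem_iff.mp hl) with rfl | hl
    · omega
    · rcases List.mem_cons.mp hl with rfl | h
      · omega
      · have := hlt l h; omega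
  refine ⟨x, x + 1, x + 2, hnd1, hM1, ?_⟩
  have hI : Inv 5 (G F) := invG s.good (by norm_num)
  rw [hI.chg u v M (x + 2) (by omega) hnd hM (fun l hl => by have := hlt l hl; omega)]
  symm
  have e : (x :: u) ++ (x + 2) :: (v ++ [x + 1]) = x :: ((u ++ (x + 2) :: v) ++ [x + 1]) := by simp
  rw [e]
  apply G_eq s.good s.asc _ _ _ (by simp) (by simp; omega)
  · rw [← e]
    have hp2 : ((x :: u) ++ (x + 2) :: (v ++ [x + 1])).Perm
      ((x + 2) :: ((x :: u) ++ (v ++ [x + 1]))) := List.perm_middle
    rw [hp2.nodup_iff]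
    exact nodup_cons_lt hnd1 hM1
  · left
    intro a t h
    cases u with
    | nil => exact absurd rfl hu
    | cons b u =>
      simp only [List.cons_append, List.cons.injEq] at h
      rw [← h.1]
      exact hlt b (by simp)

theorem Sev.G1 (s : Sev F) (u v : List ℤ) (M : ℤ) (hu : u.length = 1) (hv : v.length = 3)
    (hnd : (u ++ v).Nodup) (hM : ∀ l ∈ u ++ v, l < M) : G F (u ++ M :: v) = 0 := by
  obtain ⟨x, z, M', h1, h2, h3⟩ := s.Gmid u v M (by intro h; subst h; simp at hu) (by omega) hnd hM
  rw [h3]
  exact s.h2 _ _ _ (by simp [hu]) (by simp [hv]) h1 h2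

theorem Sev.G2 (s : Sev F) (u v : List ℤ) (M : ℤ) (hu : u.length = 2) (hv : v.length = 2)
    (hnd : (u ++ v).Nodup) (hM : ∀ l ∈ u ++ v, l < M) : G F (u ++ M :: v) = 1 := by
  obtain ⟨x, z, M', h1, h2, h3⟩ := s.Gmid u v M (by intro h; subst h; simp at hu) (by omega) hnd hM
  rw [h3]
  exact s.h3 _ _ _ (by simp [hu]) (by simp [hv]) h1 h2

theorem Sev.G3 (s : Sev F) (u v : List ℤ) (M : ℤ) (hu : u.length = 3) (hv : v.length = 1)
    (hnd : (u ++ v).Nodup) (hM : ∀ l ∈ u ++ v, l < M) : G F (u ++ M :: v) = 0 := by
  obtain ⟨x, z, M', h1, h2, h3⟩ := s.Gmid u v M (by intro h; subst h; simp at hu) (by omega) hnd hM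
  rw [h3]
  exact s.h4 _ _ _ (by simp [hu]) (by simp [hv]) h1 h2

/-- the function of four letters -/
def gq (F : List ℤ → ℚ) (y : List ℤ) : ℚ := G F (ub y :: y)

/-- the function of three letters -/
def hq (F : List ℤ → ℚ) (y : List ℤ) : ℚ := gq F (ub y :: y)

theorem Sev.invg (s : Sev F) : Inv 4 (gq F) := (invG s.good (by norm_num)).cons

theorem Sev.invh (s : Sev F) : Inv 3 (hq F) := s.invg.cons

theorem Sev.G0 (s : Sev F) (x : ℤ) (y : List ℤ) (hl : y.length = 4) (hnd : (x :: y).Nodup)
    (hx : ∀ a t, y = a :: t → a < x) : G F (x :: y) = gq F y := by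
  unfold gq
  have hy := (List.nodup_cons.mp hnd).2
  set M := ub (x :: ub y :: y) with hM
  have h1 : x < M := lt_ub (by simp)
  have h2 : ub y < M := lt_ub (by simp)
  have h3 : ∀ l ∈ y, l < M := fun l hl => lt_ub (by simp [hl])
  have h4 : ∀ l ∈ y, l < ub y := fun l hl => lt_ub hl
  cases y with
  | nil => simp at hl
  | cons b t =>
    rw [s.Gx x b t M (by simpa using hl) hnd (hx b t rfl)
      (by
        intro l hl
        rcases List.mem_cons.mp hl with rfl | h
        · exact h1
        · exact h3 l h),
      s.Gx (ub (b :: t)) b t M (by simpa using hl) (nodup_cons_lt hy h4) (h4 b (by simp))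
      (by
        intro l hl
        rcases List.mem_cons.mp hl with rfl | h
        · exact h2
        · exact h3 l h)]

theorem Sev.G4 (s : Sev F) (y : List ℤ) (M : ℤ) (hl : y.length = 4) (hnd : y.Nodup)
    (hM : ∀ l ∈ y, l < M) : G F (y ++ [M]) = 1 - gq F y := by
  have h4 : ∀ l ∈ y, l < ub y := fun l hl => lt_ub hl
  have hI : Inv 5 (G F) := invG s.good (by norm_num)
  rw [hI.chg y [] M (ub y + 1) (by simp [hl]) (by simpa using hnd) (by simpa using hM)
    (by intro l hl; have := h4 l (by simpa using hl); omega)]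
  unfold gq
  cases y with
  | nil => simp at hl
  | cons b t =>
    rw [s.Gx (ub (b :: t)) b t (ub (b :: t) + 1) (by simpa using hl) (nodup_cons_lt hnd h4)
      (h4 b (by simp))
      (by
        intro l hl
        rcases List.mem_cons.mp hl with rfl | h
        · omega
        · have := h4 l h; omega)]
    ring

theorem Sev.grev (s : Sev F) (y : List ℤ) (hl : y.length = 4) (hnd : y.Nodup) :
    gq F y.reverse = 1 - gq F y := by
  have h1 : ∀ l ∈ y, l < ub y.reverse := fun l hl => lt_ub (by simpa using hl)
  have h2 := s.G4 y (ub y.reverse) hl hnd h1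
  have hnd2 : (y ++ [ub y.reverse]).Nodup := by
    have hp : (y ++ [ub y.reverse]).Perm (ub y.reverse :: y) := List.perm_append_singleton _ _
    rw [hp.nodup_iff]
    exact nodup_cons_lt hnd h1
  rw [← h2, ← s.Grev _ (by simp [hl]) hnd2]
  simp [gq]

theorem Sev.g0 (s : Sev F) (x : ℤ) (w : List ℤ) (hl : w.length = 3) (hnd : (x :: w).Nodup)
    (hx : ∀ a t, w = a :: t → a < x) : gq F (x :: w) = hq F w := by
  have hw := (List.nodup_cons.mp hnd).2
  have h4 : ∀ l ∈ w, l < ub w := fun l hl => lt_ub hl
  have hne : w ≠ [] := by intro h; subst h; simp at hl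
  have key : ∀ x M : ℤ, (x :: w).Nodup → (∀ a t, w = a :: t → a < x) → x < M →
      (∀ l ∈ w, l < M) → gq F (x :: w) = 1 - gq F (w ++ [M]) := by
    intro x M hxw hx hxM hM
    have hnd1 : (x :: (w ++ [M])).Nodup := by
      have hp : (x :: (w ++ [M])).Perm (M :: x :: w) := by
        have : x :: (w ++ [M]) = (x :: w) ++ [M] := by simp
        rw [this]
        exact List.perm_append_singleton _ _
      rw [hp.nodup_iff]
      apply nodup_cons_lt hxw
      intro l hl
      rcases List.mem_cons.mp hl with rfl | h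
      · exact hxM
      · exact hM l h
    have e1 := s.G0 x (w ++ [M]) (by simp [hl]) hnd1 (by
      intro a t h
      cases w with
      | nil => exact absurd rfl hne
      | cons b r =>
        simp only [List.cons_append, List.cons.injEq] at h
        rw [← h.1]; exact hx b r rfl)
    have e2 := s.G4 (x :: w) M (by simp [hl]) hxw (by
      intro l hl
      rcases List.mem_cons.mp hl with rfl | h
      · exact hxM
      · exact hM l h)
    have e3 : (x :: w) ++ [M] = x :: (w ++ [M]) := by simp
    rw [e3, e1] at e2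
    linarith
  set M := ub (x :: ub w :: w) with hM
  have h1 : x < M := lt_ub (by simp)
  have h2 : ub w < M := lt_ub (by simp)
  have h3 : ∀ l ∈ w, l < M := fun l hl => lt_ub (by simp [hl])
  unfold hq
  rw [key x M hnd hx h1 h3, key (ub w) M (nodup_cons_lt hw h4)
    (fun a t h => h4 a (by simp [h])) h2 h3]

theorem Sev.g3 (s : Sev F) (w : List ℤ) (M : ℤ) (hl : w.length = 3) (hnd : w.Nodup)
    (hM : ∀ l ∈ w, l < M) : gq F (w ++ [M]) = 1 - hq F w := by
  have h4 : ∀ l ∈ w, l < ub w := fun l hl => lt_ub hl
  have hne : w ≠ [] := by intro h; subst h; simp at hl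
  rw [s.invg.chg w [] M (ub w + 1) (by simp [hl]) (by simpa using hnd) (by simpa using hM)
    (by intro l hl; have := h4 l (by simpa using hl); omega)]
  have hp : (ub w :: (w ++ [ub w + 1])).Perm ((ub w + 1) :: ub w :: w) := by
    have : ub w :: (w ++ [ub w + 1]) = (ub w :: w) ++ [ub w + 1] := by simp
    rw [this]
    exact List.perm_append_singleton _ _
  have hnd1 : (ub w :: (w ++ [ub w + 1])).Nodup := by
    rw [hp.nodup_iff]
    apply nodup_cons_lt (nodup_cons_lt hnd h4)
    intro l hl
    rcases List.mem_cons.mp hl with rfl | h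
    · omega
    · have := h4 l h; omega
  have e1 := s.G0 (ub w) (w ++ [ub w + 1]) (by simp [hl]) hnd1 (by
    intro a t h
    cases w with
    | nil => exact absurd rfl hne
    | cons b r =>
      simp only [List.cons_append, List.cons.injEq] at h
      rw [← h.1]; exact h4 b (by simp))
  have e2 := s.G4 (ub w :: w) (ub w + 1) (by simp [hl]) (nodup_cons_lt hnd h4) (by
    intro l hl
    rcases List.mem_cons.mp hl with rfl | h
    · omega
    · have := h4 l h; omega)
  have e3 : (ub w :: w) ++ [ub w + 1] = ub w :: (w ++ [ub w + 1]) := by simp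
  rw [e3, e1] at e2
  unfold hq
  exact e2

/-- the value of `gq` with the largest letter in the middle -/
theorem Sev.gmid (s : Sev F) (u v : List ℤ) (M : ℤ) (hu : u ≠ []) (hl : u.length + v.length = 3)
    (hnd : (u ++ v).Nodup) (hM : ∀ l ∈ u ++ v, l < M) :
    ∃ x M' : ℤ, ((x :: u) ++ v).Nodup ∧ (∀ l ∈ (x :: u) ++ v, l < M') ∧
      gq F (u ++ M :: v) = G F ((x :: u) ++ M' :: v) := by
  set x := ub (u ++ v) with hx
  have hlt : ∀ l ∈ u ++ v, l < x := fun l hl => lt_ub hl
  have hnd1 : ((x :: u) ++ v).Nodup := nodup_cons_lt hnd hlt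
  have hM1 : ∀ l ∈ (x :: u) ++ v, l < x + 1 := by
    intro l hl
    rw [List.cons_append] at hl
    rcases List.mem_cons.mp hl with rfl | h
    · omega
    · have := hlt l h; omega
  refine ⟨x, x + 1, hnd1, hM1, ?_⟩
  rw [s.invg.chg u v M (x + 1) (by omega) hnd hM (fun l hl => by have := hlt l hl; omega)]
  symm
  rw [List.cons_append]
  apply s.G0 x _ (by simp; omega)
  · have hp2 : ((x :: u) ++ (x + 1) :: v).Perm ((x + 1) :: ((x :: u) ++ v)) := List.perm_middle
    rw [← List.cons_append, hp2.nodup_iff]
    exact nodup_cons_lt hnd1 hM1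
  · intro a t h
    cases u with
    | nil => exact absurd rfl hu
    | cons b u =>
      simp only [List.cons_append, List.cons.injEq] at h
      rw [← h.1]
      exact hlt b (by simp)

theorem Sev.g1 (s : Sev F) (u v : List ℤ) (M : ℤ) (hu : u.length = 1) (hv : v.length = 2)
    (hnd : (u ++ v).Nodup) (hM : ∀ l ∈ u ++ v, l < M) : gq F (u ++ M :: v) = 1 := by
  obtain ⟨x, M', h1, h2, h3⟩ := s.gmid u v M (by intro h; subst h; simp at hu) (by omega) hnd hM
  rw [h3]
  exact s.G2 _ _ _ (by simp [hu]) hv h1 h2

theorem Sev.g2 (s : Sev F) (u v : List ℤ) (M : ℤ) (hu : u.length = 2) (hv : v.length = 1)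
    (hnd : (u ++ v).Nodup) (hM : ∀ l ∈ u ++ v, l < M) : gq F (u ++ M :: v) = 0 := by
  obtain ⟨x, M', h1, h2, h3⟩ := s.gmid u v M (by intro h; subst h; simp at hu) (by omega) hnd hM
  rw [h3]
  exact s.G3 _ _ _ (by simp [hu]) hv h1 h2

theorem Sev.hrev (s : Sev F) (w : List ℤ) (hl : w.length = 3) (hnd : w.Nodup) :
    hq F w.reverse = hq F w := by
  have h4 : ∀ l ∈ w, l < ub w := fun l hl => lt_ub hl
  have e1 := s.g0 (ub w) w.reverse (by simpa using hl)
    (nodup_cons_lt (List.nodup_reverse.mpr hnd) (fun l hl => h4 l (by simpa using hl)))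
    (fun a t h => h4 a (by rw [← List.mem_reverse, h]; simp))
  have e2 : ub w :: w.reverse = (w ++ [ub w]).reverse := by simp
  have hnd1 : (w ++ [ub w]).Nodup := by
    have hp : (w ++ [ub w]).Perm (ub w :: w) := List.perm_append_singleton _ _
    rw [hp.nodup_iff]
    exact nodup_cons_lt hnd h4
  rw [← e1, e2, s.grev _ (by simp [hl]) hnd1, s.g3 w (ub w) hl hnd h4]
  ring

theorem Sev.hpeak (s : Sev F) (a M b : ℤ) (hab : a ≠ b) (h1 : a < M) (h2 : b < M) :
    hq F [a, M, b] = 0 := by
  set x := ub [a, b] with hx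
  have ha : a < x := lt_ub (by simp)
  have hb : b < x := lt_ub (by simp)
  have e0 := s.invh.chg [a] [b] M (x + 1) (by simp) (by simpa using hab)
    (by intro l hl; simp at hl; rcases hl with rfl | rfl <;> assumption)
    (by intro l hl; simp at hl; rcases hl with rfl | rfl <;> omega)
  have e1 := s.g0 x [a, x + 1, b] (by simp)
    (by simp; omega) (by intro c t h; simp at h; rw [← h.1]; exact ha)
  have e2 := s.g2 [x, a] [b] (x + 1) (by simp) (by simp) (by simp; omega)
    (by intro l hl; simp at hl; rcases hl with rfl | rfl | rfl <;> omega)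
  have e3 : [a] ++ M :: [b] = [a, M, b] := rfl
  have e4 : [a] ++ (x + 1) :: [b] = [a, x + 1, b] := rfl
  have e5 : [x, a] ++ (x + 1) :: [b] = x :: [a, x + 1, b] := rfl
  rw [e3, e4] at e0
  rw [e5, e1] at e2
  rw [e0, e2]

theorem Sev.hlast (s : Sev F) (x a b M : ℤ) (h1 : a < x) (h2 : x ≠ b) (h3 : a ≠ b) (h4 : x < M)
    (h5 : b < M) : hq F [a, b, M] = 1 - hq F [x, a, b] := by
  have e1 := s.g0 x [a, b, M] (by simp) (by simp; omega)
    (by intro c t h; simp at h; rw [← h.1]; exact h1)
  have e2 := s.g3 [x, a, b] M (by simp) (by simp; omega)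
    (by intro l hl; simp at hl; rcases hl with rfl | rfl | rfl <;> omega)
  have e3 : [x, a, b] ++ [M] = x :: [a, b, M] := rfl
  rw [e3, e1] at e2
  exact e2

theorem Sev.hmono (s : Sev F) (a b c : ℤ) (h1 : a < b) (h2 : b < c) :
    hq F [a, b, c] = hq F [0, 1, 2] := by
  have := s.invh [0, 1, 2] (fun l => if l = 0 then a else if l = 1 then b else c) (by simp)
    (by simp) (by
      intro x hx y hy hxy
      simp only [List.mem_cons, List.not_mem_nil, or_false] at hx hy
      rcases hx with rfl | rfl | rfl <;> rcases hy with rfl | rfl | rfl <;> simp at hxy ⊢ <;> omega)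
  simpa using this

/-! ### the explicit values -/

/-- the value of a truth value -/
def b2q (b : Bool) : ℚ := if b then 1 else 0

theorem b2q_not (b : Bool) : b2q (!b) = 1 - b2q b := by cases b <;> simp [b2q]

/-- the letters before the largest one, the largest one, the letters after it -/
def pm : List ℤ → List ℤ × ℤ × List ℤ
  | [] => ([], 0, [])
  | x :: w => if w.all (fun y => decide (y < x)) then ([], x, w) else
      match pm w with
      | (u, M, v) => (x :: u, M, v)

theorem pm_spec (w : List ℤ) (hw : w.Nodup) (hne : w ≠ []) :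
    w = (pm w).1 ++ (pm w).2.1 :: (pm w).2.2 ∧
      ∀ l ∈ (pm w).1 ++ (pm w).2.2, l < (pm w).2.1 := by
  induction w with
  | nil => exact absurd rfl hne
  | cons x w ih =>
    by_cases h : w.all (fun y => decide (y < x)) = true
    · have e : pm (x :: w) = ([], x, w) := by simp only [pm, h, if_true]
      rw [e]
      refine ⟨by simp, ?_⟩
      intro l hl
      simp only [List.nil_append] at hl
      rw [List.all_eq_true] at h
      simpa using h l hl
    · have e : pm (x :: w) = (x :: (pm w).1, (pm w).2.1, (pm w).2.2) := by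
        simp only [pm, h]
        rfl
      have hw0 : w ≠ [] := by
        rintro rfl
        simp at h
      obtain ⟨i1, i2⟩ := ih (List.nodup_cons.mp hw).2 hw0
      rw [e]
      simp only [List.cons_append, List.cons.injEq, true_and]
      refine ⟨i1, ?_⟩
      intro l hl
      rcases List.mem_cons.mp hl with rfl | hl
      · rw [List.all_eq_true] at h
        push Not at h
        obtain ⟨y, hy, hyx⟩ := h
        have hyx' : ¬ y < l := by simpa using hyx
        have hne2 : y ≠ l := by
          rintro rfl
          exact (List.nodup_cons.mp hw).1 hy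
        rw [i1] at hy
        have hp : ((pm w).1 ++ (pm w).2.1 :: (pm w).2.2).Perm
          ((pm w).2.1 :: ((pm w).1 ++ (pm w).2.2)) := List.perm_middle
        rcases List.mem_cons.mp (hp.mem_iff.mp hy) with h6 | h6
        · omega
        · have := i2 y h6; omega
      · exact i2 l hl

/-- the function of three letters -/
def hc (θ : Bool) : List ℤ → Bool
  | [a, b, c] => if a < b then (if b < c then θ else false) else (if b < c then !θ else θ)
  | _ => false

/-- the function of four letters -/
def gc (θ : Bool) (w : List ℤ) : Bool :=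
  match pm w with
  | (u, _, v) => match u.length with
    | 0 => hc θ v
    | 1 => true
    | 2 => false
    | _ => !hc θ u

/-- the function of five letters -/
def Gc (θ : Bool) (w : List ℤ) : Bool :=
  match pm w with
  | (u, _, v) => match u.length with
    | 0 => gc θ v
    | 1 => false
    | 2 => true
    | 3 => false
    | _ => !gc θ u

/-- the function of seven letters -/
def Fc (θ : Bool) (w : List ℤ) : Bool :=
  match pm w with
  | (u, _, v) => match u.length with
    | 0 => Gc θ v.dropLast
    | 1 => !Gc θ v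
    | 2 => false
    | 3 => true
    | 4 => false
    | 5 => !Gc θ u
    | _ => Gc θ u.tail

theorem Sev.hc_ok (s : Sev F) (θ : Bool) (hθ : hq F [0, 1, 2] = b2q θ) (w : List ℤ)
    (hl : w.length = 3) (hw : w.Nodup) : hq F w = b2q (hc θ w) := by
  obtain ⟨a, b, c, rfl⟩ := List.length_eq_three.mp hl
  simp only [List.nodup_cons, List.mem_cons, List.not_mem_nil, or_false, not_or, not_false_eq_true,
    List.nodup_nil, and_true] at hw
  obtain ⟨⟨hab, hac⟩, hbc⟩ := hw
  have hr : ∀ x y z : ℤ, x ≠ y → x ≠ z → y ≠ z → hq F [z, y, x] = hq F [x, y, z] := by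
    intro x y z h1 h2 h3
    have := s.hrev [x, y, z] (by simp) (by simp; omega)
    simpa using this
  by_cases h1 : a < b
  · by_cases h2 : b < c
    · simp only [hc, h1, h2, if_true]
      rw [s.hmono a b c h1 h2, hθ]
    · simp only [hc, h1, h2, if_true, if_false]
      rw [s.hpeak a b c (by omega) h1 (by omega)]
      simp [b2q]
  · by_cases h2 : b < c
    · simp only [hc, h1, h2, if_true, if_false]
      rw [b2q_not, ← hθ]
      -- a valley
      have key : ∀ x y z : ℤ, y < z → z < x → hq F [x, y, z] = 1 - hq F [0, 1, 2] := by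
        intro x y z h3 h4
        have h5 := s.hlast x y z (x + 1) (by omega) (by omega) (by omega) (by omega) (by omega)
        rw [s.hmono y z (x + 1) h3 (by omega)] at h5
        linarith
      by_cases h3 : a < c
      · rw [← hr a b c (by omega) (by omega) (by omega)]
        exact key c b a (by omega) h3
      · exact key a b c h2 (by omega)
    · simp only [hc, h1, h2, if_false]
      rw [← hr a b c (by omega) (by omega) (by omega), s.hmono c b a (by omega) (by omega), hθ]

theorem Sev.gc_ok (s : Sev F) (θ : Bool) (hθ : hq F [0, 1, 2] = b2q θ) (w : List ℤ)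
    (hl : w.length = 4) (hw : w.Nodup) : gq F w = b2q (gc θ w) := by
  obtain ⟨h1, h2⟩ := pm_spec w hw (by intro h; subst h; simp at hl)
  unfold gc
  generalize pm w = r at h1 h2
  obtain ⟨u, M, v⟩ := r
  simp only at h1 h2 ⊢
  subst h1
  simp only [List.length_append, List.length_cons] at hl
  have hp : (u ++ M :: v).Perm (M :: (u ++ v)) := List.perm_middle
  have hnd : (u ++ v).Nodup := (List.nodup_cons.mp (hp.nodup_iff.mp hw)).2
  have hu4 : u.length ≤ 3 := by omega
  interval_cases hu : u.length
  · have : u = [] := List.length_eq_zero_iff.mp hu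
    subst this
    simp only [List.nil_append] at hw h2 ⊢
    rw [s.g0 M v (by omega) hw (fun a t h => h2 a (by simp [h]))]
    exact s.hc_ok θ hθ v (by omega) (List.nodup_cons.mp hw).2
  · rw [s.g1 u v M hu (by omega) hnd h2]; simp [b2q]
  · rw [s.g2 u v M hu (by omega) hnd h2]; simp [b2q]
  · have : v = [] := List.length_eq_zero_iff.mp (by omega)
    subst this
    rw [List.append_nil] at hnd h2
    rw [s.g3 u M hu hnd h2]
    show 1 - hq F u = b2q (!hc θ u)
    rw [b2q_not, s.hc_ok θ hθ u hu hnd]

theorem Sev.Gc_ok (s : Sev F) (θ : Bool) (hθ : hq F [0, 1, 2] = b2q θ) (w : List ℤ)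
    (hl : w.length = 5) (hw : w.Nodup) : G F w = b2q (Gc θ w) := by
  obtain ⟨h1, h2⟩ := pm_spec w hw (by intro h; subst h; simp at hl)
  unfold Gc
  generalize pm w = r at h1 h2
  obtain ⟨u, M, v⟩ := r
  simp only at h1 h2 ⊢
  subst h1
  simp only [List.length_append, List.length_cons] at hl
  have hp : (u ++ M :: v).Perm (M :: (u ++ v)) := List.perm_middle
  have hnd : (u ++ v).Nodup := (List.nodup_cons.mp (hp.nodup_iff.mp hw)).2
  have hu4 : u.length ≤ 4 := by omega
  interval_cases hu : u.length
  · have : u = [] := List.length_eq_zero_iff.mp hu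
    subst this
    simp only [List.nil_append] at hw h2 ⊢
    rw [s.G0 M v (by omega) hw (fun a t h => h2 a (by simp [h]))]
    exact s.gc_ok θ hθ v (by omega) (List.nodup_cons.mp hw).2
  · rw [s.G1 u v M hu (by omega) hnd h2]; simp [b2q]
  · rw [s.G2 u v M hu (by omega) hnd h2]; simp [b2q]
  · rw [s.G3 u v M hu (by omega) hnd h2]; simp [b2q]
  · have : v = [] := List.length_eq_zero_iff.mp (by omega)
    subst this
    rw [List.append_nil] at hnd h2
    rw [s.G4 u M hu hnd h2]
    show 1 - gq F u = b2q (!gc θ u)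
    rw [b2q_not, s.gc_ok θ hθ u hu hnd]

theorem Sev.Fc_ok (s : Sev F) (θ : Bool) (hθ : hq F [0, 1, 2] = b2q θ) (w : List ℤ)
    (hl : w.length = 7) (hw : w.Nodup) : F w = b2q (Fc θ w) := by
  obtain ⟨h1, h2⟩ := pm_spec w hw (by intro h; subst h; simp at hl)
  unfold Fc
  generalize pm w = r at h1 h2
  obtain ⟨u, M, v⟩ := r
  simp only at h1 h2 ⊢
  subst h1
  simp only [List.length_append, List.length_cons] at hl
  have hp : (u ++ M :: v).Perm (M :: (u ++ v)) := List.perm_middle
  have hnd : (u ++ v).Nodup := (List.nodup_cons.mp (hp.nodup_iff.mp hw)).2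
  have hu4 : u.length ≤ 6 := by omega
  interval_cases hu : u.length
  · have : u = [] := List.length_eq_zero_iff.mp hu
    subst this
    simp only [List.nil_append] at hw h2 ⊢
    have hv := (List.nodup_cons.mp hw).2
    rw [F_first s.good s.asc (by norm_num) M v (by omega) hv h2]
    exact s.Gc_ok θ hθ _ (by rw [List.length_dropLast]; omega)
      (hv.sublist (List.dropLast_sublist v))
  · obtain ⟨x, rfl⟩ := List.length_eq_one_iff.mp hu
    have := s.h1 x v M (by omega) (by simpa using hnd) (by simpa using h2)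
    rw [List.singleton_append, this]
    show 1 - G F v = b2q (!Gc θ v)
    rw [b2q_not, s.Gc_ok θ hθ v (by omega) (hnd.sublist (List.sublist_append_right _ _))]
  · rw [s.h2 u v M hu (by omega) hnd h2]; simp [b2q]
  · rw [s.h3 u v M hu (by omega) hnd h2]; simp [b2q]
  · rw [s.h4 u v M hu (by omega) hnd h2]; simp [b2q]
  · obtain ⟨z, rfl⟩ := List.length_eq_one_iff.mp (show v.length = 1 by omega)
    rw [s.h5 u M z hu hnd h2]
    show 1 - G F u = b2q (!Gc θ u)
    rw [b2q_not, s.Gc_ok θ hθ u hu (hnd.sublist (List.sublist_append_left _ _))]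
  · have : v = [] := List.length_eq_zero_iff.mp (by omega)
    subst this
    rw [List.append_nil] at hnd h2
    have hur := List.nodup_reverse.mpr hnd
    have e : u ++ [M] = (M :: u.reverse).reverse := by simp
    rw [e, s.rev (M :: u.reverse) (by simp [hu])
      (nodup_cons_lt hur (fun l hl => h2 l (by simpa using hl))),
      F_first s.good s.asc (by norm_num) M u.reverse (by simp [hu]) hur
        (fun l hl => h2 l (by simpa using hl)), List.dropLast_reverse,
      s.Grev _ (by rw [List.length_tail]; omega) (hnd.sublist (List.tail_sublist u))]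
    exact s.Gc_ok θ hθ _ (by rw [List.length_tail]; omega) (hnd.sublist (List.tail_sublist u))

/-- the number of the shuffles with both values one -/
def cnt (θ : Bool) (p q : List ℤ) : ℕ :=
  ((shuf p q).filter (fun w => Fc θ (w.take 7) && Fc θ (w.drop 2))).length

theorem sum_b2q {α : Type} (l : List α) (b : α → Bool) :
    (l.map (fun w => b2q (b w))).sum = ((l.filter b).length : ℚ) := by
  induction l with
  | nil => simp
  | cons a l ih =>
    rw [List.map_cons, List.sum_cons, ih, List.filter_cons]
    cases h : b a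
    · simp [b2q]
    · simp only [b2q, if_true, List.length_cons]
      push_cast
      ring

theorem Sev.cnt_ok (s : Sev F) (θ : Bool) (hθ : hq F [0, 1, 2] = b2q θ) (p q : List ℤ)
    (hl : p.length + q.length = 9) (hnd : (p ++ q).Nodup) :
    S (fun w => F ((w.drop 0).take 7) * F ((w.drop 2).take 7)) p q = cnt θ p q := by
  have h1 : S (fun w => F ((w.drop 0).take 7) * F ((w.drop 2).take 7)) p q =
      S (fun w => b2q (Fc θ (w.take 7) && Fc θ (w.drop 2))) p q := by
    apply S_congr
    intro w hw
    have hwl : w.length = 9 := by rw [hw.length_eq]; simpa using hl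
    have hwn : w.Nodup := hw.nodup_iff.mpr hnd
    have e1 : (w.drop 2).take 7 = w.drop 2 := List.take_of_length_le (by simp [hwl])
    rw [List.drop_zero, e1, s.Fc_ok θ hθ (w.take 7) (by simp [hwl])
      (hwn.sublist (List.take_sublist _ _)), s.Fc_ok θ hθ (w.drop 2) (by simp [hwl])
      (hwn.sublist (List.drop_sublist _ _))]
    cases Fc θ (w.take 7) <;> cases Fc θ (w.drop 2) <;> simp [b2q]
  rw [h1]
  unfold S cnt
  exact sum_b2q _ _

end Pool.Agent.Q258.BC
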