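import Mathlib

/-!
# Shuffles of words and sums over shuffles
-/

set_option autoImplicit false

namespace Pool.Agent.Q258.BC

variable {α β : Type}

/-- the inner recursion of the list of the shuffles -/
def shufIn (f : List α → List (List α)) (a : α) (u : List α) : List α → List (List α)
  | [] => [a :: u]
  | b :: v => (f (b :: v)).map (fun w => a :: w) ++ (shufIn f a u v).map (fun w => b :: w)

/-- the list of the shuffles of two words -/
def shuf : List α → List α → List (List α)
  | [], v => [v]
  | a :: u, v => shufIn (shuf u) a u v

theorem shuf_nil_left (v : List α) : shuf [] v = [v] := rfl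

theorem shuf_nil_right (u : List α) : shuf u [] = [u] := by cases u <;> rfl

theorem shuf_cons_cons (a : α) (u : List α) (b : α) (v : List α) :
    shuf (a :: u) (b :: v) =
      (shuf u (b :: v)).map (fun w => a :: w) ++ (shuf (a :: u) v).map (fun w => b :: w) := rfl

theorem two_ind {P : List α → List α → Prop} (h1 : ∀ v, P [] v) (h2 : ∀ u, P u [])
    (h3 : ∀ a u b v, P u (b :: v) → P (a :: u) v → P (a :: u) (b :: v)) : ∀ u v, P u v := by
  intro u
  induction u with
  | nil => exact h1
  | cons a u ih =>
    intro v
    induction v with
    | nil => exact h2 _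
    | cons b v ih2 => exact h3 _ _ _ _ (ih _) ih2

theorem three_ind {P : List α → List α → List α → Prop} (h1 : ∀ v w, P [] v w)
    (h2 : ∀ u w, P u [] w) (h4 : ∀ u v, P u v [])
    (h3 : ∀ a u b v c w, P u (b :: v) (c :: w) → P (a :: u) v (c :: w) → P (a :: u) (b :: v) w →
      P (a :: u) (b :: v) (c :: w)) : ∀ u v w, P u v w := by
  intro u
  induction u with
  | nil => exact h1
  | cons a u ih =>
    intro v
    induction v with
    | nil => exact h2 _
    | cons b v ih2 =>
      intro w
      induction w with
      | nil => exact h4 _ _
      | cons c w ih3 => exact h3 _ _ _ _ _ _ (ih _ _) (ih2 _) ih3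

theorem perm_of_mem_shuf (u v : List α) : ∀ w ∈ shuf u v, w.Perm (u ++ v) := by
  refine two_ind (P := fun u v => ∀ w ∈ shuf u v, w.Perm (u ++ v)) ?_ ?_ ?_ u v
  · intro v w hw
    rw [shuf_nil_left, List.mem_singleton] at hw
    subst hw; simp
  · intro u w hw
    rw [shuf_nil_right, List.mem_singleton] at hw
    subst hw; simp
  · intro a u b v h1 h2 w hw
    rw [shuf_cons_cons, List.mem_append, List.mem_map, List.mem_map] at hw
    rcases hw with ⟨t, ht, rfl⟩ | ⟨t, ht, rfl⟩
    · exact (h1 t ht).cons a
    · have h := (h2 t ht).cons b
      refine h.trans ?_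
      have : (b :: (a :: u ++ v)).Perm (a :: u ++ b :: v) := by
        exact (List.perm_middle (a := b) (l₁ := a :: u) (l₂ := v)).symm
      exact this

/-- the sum of the values of `H` at the shuffles of `u` and `v` -/
def S (H : List α → ℚ) (u v : List α) : ℚ := ((shuf u v).map H).sum

theorem S_nil_left (H : List α → ℚ) (v : List α) : S H [] v = H v := by
  simp [S, shuf_nil_left]

theorem S_nil_right (H : List α → ℚ) (u : List α) : S H u [] = H u := by
  simp [S, shuf_nil_right]

theorem S_cons_cons (H : List α → ℚ) (a : α) (u : List α) (b : α) (v : List α) :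
    S H (a :: u) (b :: v) =
      S (fun w => H (a :: w)) u (b :: v) + S (fun w => H (b :: w)) (a :: u) v := by
  simp [S, shuf_cons_cons, List.map_map, Function.comp_def]

theorem S_congr {H H' : List α → ℚ} {u v : List α}
    (h : ∀ w, w.Perm (u ++ v) → H w = H' w) : S H u v = S H' u v := by
  unfold S
  congr 1
  apply List.map_congr_left
  intro w hw
  exact h w (perm_of_mem_shuf u v w hw)

theorem S_add (H H' : List α → ℚ) (u v : List α) :
    S (fun w => H w + H' w) u v = S H u v + S H' u v := by
  unfold S
  rw [← List.sum_map_add]

theorem S_smul (c : ℚ) (H : List α → ℚ) (u v : List α) :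
    S (fun w => c * H w) u v = c * S H u v := by
  unfold S
  rw [← List.sum_map_mul_left]

theorem S_neg (H : List α → ℚ) (u v : List α) :
    S (fun w => - H w) u v = - S H u v := by
  have := S_smul (-1) H u v
  simpa using this

theorem S_sub (H H' : List α → ℚ) (u v : List α) :
    S (fun w => H w - H' w) u v = S H u v - S H' u v := by
  have h := S_add H (fun w => - H' w) u v
  rw [S_neg] at h
  simpa [sub_eq_add_neg] using h

theorem length_shuf (u v : List α) :
    (shuf u v).length = (u.length + v.length).choose u.length := by
  refine two_ind (P := fun u v => (shuf u v).length = (u.length + v.length).choose u.length)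
    ?_ ?_ ?_ u v
  · intro v; simp [shuf_nil_left]
  · intro u; simp [shuf_nil_right]
  · intro a u b v h1 h2
    rw [shuf_cons_cons, List.length_append, List.length_map, List.length_map, h1, h2]
    simp only [List.length_cons]
    have : u.length + 1 + (v.length + 1) = (u.length + (v.length + 1)) + 1 := by ring
    rw [this, Nat.choose_succ_succ]
    congr 2
    ring

theorem S_const (c : ℚ) (u v : List α) :
    S (fun _ => c) u v = ((u.length + v.length).choose u.length : ℕ) * c := by
  unfold S
  rw [List.map_const', List.sum_replicate, length_shuf, nsmul_eq_mul]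

theorem S_comm (H : List α → ℚ) (u v : List α) : S H u v = S H v u := by
  refine two_ind (P := fun u v => ∀ H, S H u v = S H v u) ?_ ?_ ?_ u v H
  · intro v H; rw [S_nil_left, S_nil_right]
  · intro u H; rw [S_nil_left, S_nil_right]
  · intro a u b v h1 h2 H
    rw [S_cons_cons, S_cons_cons, h1, h2, add_comm]

theorem S_assoc (H : List α → ℚ) (a b c : List α) :
    S (fun w => S H w c) a b = S (fun w => S H a w) b c := by
  refine three_ind (P := fun a b c => ∀ H, S (fun w => S H w c) a b = S (fun w => S H a w) b c)
    ?_ ?_ ?_ ?_ a b c H
  · intro v w H; simp only [S_nil_left]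
  · intro u w H; simp only [S_nil_left, S_nil_right]
  · intro u v H; simp only [S_nil_right]
  · intro a u b v c w h1 h2 h3 H
    rw [S_cons_cons (fun t => S H t (c :: w)), S_cons_cons (fun t => S H (a :: u) t)]
    simp only [S_cons_cons H]
    rw [S_add, S_add, S_add, S_add, h1, h2]
    have h4 := h3 (fun w => H (c :: w))
    rw [S_cons_cons] at h4
    have h5 := S_cons_cons (fun t => S (fun w => H (a :: w)) u t) b v c w
    linarith

theorem S_snoc (H : List α → ℚ) (a : List α) (x : α) (b : List α) (y : α) :
    S H (a ++ [x]) (b ++ [y]) =
      S (fun w => H (w ++ [x])) a (b ++ [y]) + S (fun w => H (w ++ [y])) (a ++ [x]) b := by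
  refine two_ind (P := fun a b => ∀ H : List α → ℚ, S H (a ++ [x]) (b ++ [y]) =
      S (fun w => H (w ++ [x])) a (b ++ [y]) + S (fun w => H (w ++ [y])) (a ++ [x]) b)
    ?_ ?_ ?_ a b H
  · intro b
    induction b with
    | nil =>
      intro H
      simp only [List.nil_append, S_cons_cons, S_nil_left, S_nil_right, List.cons_append]
      rw [add_comm]
    | cons b v ih =>
      intro H
      simp only [List.nil_append, List.cons_append, S_cons_cons, S_nil_left] at ih ⊢
      rw [ih]
      ring
  · intro a
    induction a with
    | nil =>
      intro H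
      simp only [List.nil_append, S_cons_cons, S_nil_left, S_nil_right, List.cons_append]
      rw [add_comm]
    | cons a u ih =>
      intro H
      simp only [List.nil_append, List.cons_append, S_cons_cons, S_nil_right] at ih ⊢
      rw [ih]
      ring
  · intro a u b v h1 h2 H
    simp only [List.cons_append, S_cons_cons] at h1 h2 ⊢
    rw [h1, h2]
    ring

theorem S_reverse (H : List α → ℚ) (a b : List α) :
    S H a.reverse b.reverse = S (fun w => H w.reverse) a b := by
  refine two_ind (P := fun a b => ∀ H : List α → ℚ,
    S H a.reverse b.reverse = S (fun w => H w.reverse) a b) ?_ ?_ ?_ a b H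
  · intro v H; simp [S_nil_left]
  · intro v H; simp [S_nil_right]
  · intro a u b v h1 h2 H
    simp only [List.reverse_cons] at h1 h2 ⊢
    rw [S_snoc, h1, h2, S_cons_cons]
    simp only [List.reverse_cons]

theorem S_map (f : β → α) (H : List α → ℚ) (a b : List β) :
    S H (a.map f) (b.map f) = S (fun w => H (w.map f)) a b := by
  refine two_ind (P := fun a b => ∀ H : List α → ℚ,
    S H (a.map f) (b.map f) = S (fun w => H (w.map f)) a b) ?_ ?_ ?_ a b H
  · intro v H; simp [S_nil_left]
  · intro v H; simp [S_nil_right]
  · intro a u b v h1 h2 H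
    simp only [List.map_cons] at h1 h2 ⊢
    rw [S_cons_cons, h1, h2, S_cons_cons]
    simp only [List.map_cons]

theorem S_dropLast (H : List α → ℚ) (a b : List α) (ha : a ≠ []) (hb : b ≠ []) :
    S (fun w => H w.dropLast) a b = S H a.dropLast b + S H a b.dropLast := by
  obtain ⟨a', x, rfl⟩ := (List.eq_nil_or_concat' a).resolve_left ha
  obtain ⟨b', y, rfl⟩ := (List.eq_nil_or_concat' b).resolve_left hb
  rw [S_snoc]
  simp only [List.dropLast_concat]

/-- the shuffles of one letter with a word -/
theorem S_insert_split (h : List α → ℚ) (x : α) (a : List α) (q : α) (b : List α) :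
    S h [x] (a ++ q :: b) =
      S (fun w => h (w ++ q :: b)) [x] a + S (fun w => h (a ++ q :: w)) [x] b := by
  induction a generalizing h with
  | nil =>
    simp only [List.nil_append, S_cons_cons, S_nil_left, S_nil_right, List.cons_append]
  | cons c a ih =>
    simp only [List.cons_append, S_cons_cons, S_nil_left] at ih ⊢
    rw [ih]
    ring

end Pool.Agent.Q258.BC
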