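import Pool.Agent.Q258.BC.Fin

/-!
# From permutation statistics on words of positive integers to the indicators
-/

set_option autoImplicit false

namespace Pool.Agent.Q258.BC

/-! ### the list of the shuffles -/

theorem shuf_map {α β : Type} (f : β → α) (u v : List β) :
    shuf (u.map f) (v.map f) = (shuf u v).map (List.map f) := by
  refine two_ind (P := fun u v => shuf (u.map f) (v.map f) = (shuf u v).map (List.map f))
    ?_ ?_ ?_ u v
  · intro v; simp [shuf_nil_left]
  · intro v; simp [shuf_nil_right]
  · intro a u b v h1 h2
    rw [List.map_cons] at h1 h2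
    rw [List.map_cons, List.map_cons, shuf_cons_cons, shuf_cons_cons, h1, h2]
    simp [List.map_map, Function.comp_def]

theorem sublist_of_mem_shuf {α : Type} (u v : List α) :
    ∀ w ∈ shuf u v, u.Sublist w ∧ v.Sublist w := by
  refine two_ind (P := fun u v => ∀ w ∈ shuf u v, u.Sublist w ∧ v.Sublist w) ?_ ?_ ?_ u v
  · intro v w hw
    rw [shuf_nil_left, List.mem_singleton] at hw
    subst hw; simp
  · intro u w hw
    rw [shuf_nil_right, List.mem_singleton] at hw
    subst hw; simp
  · intro a u b v h1 h2 w hw
    rw [shuf_cons_cons, List.mem_append, List.mem_map, List.mem_map] at hw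
    rcases hw with ⟨t, ht, rfl⟩ | ⟨t, ht, rfl⟩
    · exact ⟨(h1 t ht).1.cons_cons a, (h1 t ht).2.cons a⟩
    · exact ⟨(h2 t ht).1.cons b, (h2 t ht).2.cons_cons b⟩

theorem mem_shuf_of {α : Type} (τ : List α) : ∀ u v : List α, (u ++ v).Nodup → τ.Nodup →
    τ.length = u.length + v.length → u.Sublist τ → v.Sublist τ → τ ∈ shuf u v := by
  induction τ with
  | nil =>
    intro u v _ _ hl _ _
    have h1 : u = [] := List.length_eq_zero_iff.mp (by simp at hl; omega)
    have h2 : v = [] := List.length_eq_zero_iff.mp (by simp at hl; omega)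
    subst h1 h2
    simp [shuf_nil_left]
  | cons t τ ih =>
    intro u v hnd hτ hl hu hv
    cases u with
    | nil =>
      have : v = t :: τ := hv.eq_of_length (by simp at hl ⊢; omega)
      subst this
      simp [shuf_nil_left]
    | cons a u =>
      cases v with
      | nil =>
        have : a :: u = t :: τ := hu.eq_of_length (by simp at hl ⊢; omega)
        rw [this, shuf_nil_right]
        simp
      | cons b v =>
        have hab : a ≠ b := (List.nodup_append.mp hnd).2.2 a (by simp) b (by simp)
        have hτ' := (List.nodup_cons.mp hτ).2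
        rw [shuf_cons_cons, List.mem_append, List.mem_map, List.mem_map]
        have sub : ∀ (c : α) (s : List α), c ≠ t → (c :: s).Sublist (t :: τ) →
            (c :: s).Sublist τ := by
          intro c s hc hs
          cases hs with
          | cons _ h => exact h
          | cons_cons _ h => exact absurd rfl hc
        by_cases h1 : a = t
        · subst h1
          left
          refine ⟨τ, ?_, rfl⟩
          apply ih u (b :: v)
          · exact (List.nodup_cons.mp hnd).2
          · exact hτ'
          · simp at hl ⊢; omega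
          · exact List.cons_sublist_cons.mp hu
          · exact sub b v (Ne.symm hab) hv
        · by_cases h2 : b = t
          · subst h2
            right
            refine ⟨τ, ?_, rfl⟩
            apply ih (a :: u) v
            · exact hnd.sublist ((List.sublist_cons_self b v).append_left _)
            · exact hτ'
            · simp at hl ⊢; omega
            · exact sub a u h1 hu
            · exact List.cons_sublist_cons.mp hv
          · exfalso
            have h3 := sub a u h1 hu
            have h4 := sub b v h2 hv
            have h5 : ((a :: u) ++ (b :: v)).Subperm τ := by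
              apply List.subperm_of_subset hnd
              intro x hx
              rcases List.mem_append.mp hx with hx | hx
              · exact h3.subset hx
              · exact h4.subset hx
            have h6 := h5.length_le
            simp at h6 hl
            omega

theorem nodup_shuf {α : Type} (u v : List α) (h : (u ++ v).Nodup) : (shuf u v).Nodup := by
  refine two_ind (P := fun u v => (u ++ v).Nodup → (shuf u v).Nodup) ?_ ?_ ?_ u v h
  · intro v _; simp [shuf_nil_left]
  · intro v _; simp [shuf_nil_right]
  · intro a u b v h1 h2 h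
    have hab : a ≠ b := (List.nodup_append.mp h).2.2 a (by simp) b (by simp)
    rw [shuf_cons_cons, List.nodup_append]
    refine ⟨?_, ?_, ?_⟩
    · exact (h1 (List.nodup_cons.mp h).2).map (fun x y hxy => by simpa using hxy)
    · refine (h2 ?_).map (fun x y hxy => by simpa using hxy)
      exact h.sublist ((List.sublist_cons_self b v).append_left _)
    · intro x hx y hy hxy
      rw [List.mem_map] at hx hy
      obtain ⟨s, _, rfl⟩ := hx
      obtain ⟨t, _, rfl⟩ := hy
      simp only [List.cons.injEq] at hxy
      exact hab hxy.1

/-! ### bicompatible functions on words of integers -/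

/-- the properties of a bicompatible statistic, for words of integers -/
structure Bic {α : Type} (st : List ℤ → α) : Prop where
  inv : ∀ (w : List ℤ) (f : ℤ → ℤ), w.Nodup → (∀ x ∈ w, ∀ y ∈ w, x < y → f x < f y) →
    st (w.map f) = st w
  sub : ∀ w w' : List ℤ, w.Nodup → w'.Nodup → w.length = w'.length → st w = st w' →
    ∀ a b : ℕ, st ((w.drop a).take b) = st ((w'.drop a).take b)
  sh : ∀ p q p' q' : List ℤ, (p ++ q).Nodup → (p' ++ q').Nodup → p'.length = p.length →
    q'.length = q.length → st p = st p' → st q = st q' →
    ((shuf p q).map st).Perm ((shuf p' q').map st)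

open Classical in
theorem Bic.good {α : Type} {st : List ℤ → α} (h : Bic st) {n : ℕ}
    (hc : ∀ w w' : List ℤ, w.length = w'.length → w.length < n → w.Nodup → w'.Nodup →
      st w = st w') (w₀ w₁ : List ℤ) (h0 : w₀.length = n) (h1 : w₁.length = n) (h0n : w₀.Nodup)
    (h1n : w₁.Nodup) (hne : st w₀ ≠ st w₁) :
    Good n (fun w => if st w = st w₀ then 1 else 0) := by
  refine ⟨?_, ?_, ?_, ?_, ?_⟩
  · intro w _ _
    by_cases h2 : st w = st w₀
    · right; simp [h2]
    · left; simp [h2]
  · intro w f _ hw hf
    show (if st (w.map f) = st w₀ then (1 : ℚ) else 0) = _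
    rw [h.inv w f hw hf]
  · intro Φ a b m ha hb p q p' q' hl hp hq hnd hnd' hpn hqn
    have hstp : st p = st p' := by
      rcases hpn with hpn | rfl
      · exact hc p p' hp.symm hpn (hnd.sublist (List.sublist_append_left _ _))
          (hnd'.sublist (List.sublist_append_left _ _))
      · rfl
    have hstq : st q = st q' := by
      rcases hqn with hqn | rfl
      · exact hc q q' hq.symm hqn (hnd.sublist (List.sublist_append_right _ _))
          (hnd'.sublist (List.sublist_append_right _ _))
      · rfl
    have hperm := h.sh p q p' q' hnd hnd' hp hq hstp hstq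
    set Q : List ℤ → ℚ := fun w => Φ (if st ((w.drop a).take n) = st w₀ then 1 else 0)
      (if st ((w.drop b).take n) = st w₀ then 1 else 0) with hQ
    -- `Q` is a function of the statistic
    set R : α → ℚ := fun v => if hv : ∃ w : List ℤ, w.length = m ∧ w.Nodup ∧ st w = v then
      Q hv.choose else 0 with hR
    have hQR : ∀ w : List ℤ, w.length = m → w.Nodup → Q w = R (st w) := by
      intro w hwl hwn
      have hv : ∃ w' : List ℤ, w'.length = m ∧ w'.Nodup ∧ st w' = st w := ⟨w, hwl, hwn, rfl⟩
      have hv2 := hv.choose_spec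
      simp only [hR]
      rw [dif_pos hv]
      simp only [hQ]
      have e := h.sub w hv.choose hwn hv2.2.1 (by rw [hwl, hv2.1]) hv2.2.2.symm
      rw [e a n, e b n]
    have hS : ∀ r s : List ℤ, (r ++ s).Nodup → r.length + s.length = m →
        S Q r s = (((shuf r s).map st).map R).sum := by
      intro r s hrs hrl
      unfold S
      rw [List.map_map]
      congr 1
      apply List.map_congr_left
      intro w hw
      have hpw := perm_of_mem_shuf r s w hw
      exact hQR w (by rw [hpw.length_eq]; simpa using hrl) (hpw.nodup_iff.mpr hrs)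
    show S Q p q = S Q p' q'
    rw [hS p q hnd hl, hS p' q' hnd' (by omega)]
    exact (hperm.map R).sum_eq
  · exact ⟨w₀, h0, h0n, by simp⟩
  · exact ⟨w₁, h1, h1n, by simp [Ne.symm hne]⟩

/-! ### permutations -/

/-- a permutation: a finite sequence of distinct positive integers -/
def IsPerm (π : List ℕ) : Prop := π.Nodup ∧ ∀ a ∈ π, 0 < a

/-- two sequences of the same length have the same relative order -/
def SameOrder (π σ : List ℕ) : Prop := π.length = σ.length ∧
  ∀ (i j : ℕ) (hi : i < π.length) (hj : j < π.length) (hi' : i < σ.length) (hj' : j < σ.length),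
    π[i] < π[j] ↔ σ[i] < σ[j]

/-- a permutation statistic: permutations with the same relative order have the same value -/
def IsStatistic {α : Type} (st : List ℕ → α) : Prop :=
  ∀ π σ, IsPerm π → IsPerm σ → SameOrder π σ → st π = st σ

/-- `τ` is a shuffle of `π` and `σ`: a permutation of length `|π| + |σ|` which contains both as
subsequences -/
def IsShuffle (π σ τ : List ℕ) : Prop :=
  IsPerm τ ∧ τ.length = π.length + σ.length ∧ π.Sublist τ ∧ σ.Sublist τ

/-- shuffle compatibility: the multiset of the values at the shuffles of two disjoint permutations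
depends only on the values and the lengths -/
def ShuffleCompatible {α : Type} (st : List ℕ → α) : Prop :=
  ∀ π σ π' σ', IsPerm π → IsPerm σ → IsPerm π' → IsPerm σ' → π.Disjoint σ → π'.Disjoint σ' →
    π.length = π'.length → σ.length = σ'.length → st π = st π' → st σ = st σ' →
    ∀ v, {τ | IsShuffle π σ τ ∧ st τ = v}.ncard = {τ | IsShuffle π' σ' τ ∧ st τ = v}.ncard

/-- substring compatibility -/
def SubstringCompatible {α : Type} (st : List ℕ → α) : Prop :=
  ∀ π σ, IsPerm π → IsPerm σ → π.length = σ.length → st π = st σ →
    ∀ i j, 1 ≤ i → i ≤ j → j ≤ π.length →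
      st ((π.drop (i - 1)).take (j + 1 - i)) = st ((σ.drop (i - 1)).take (j + 1 - i))

theorem sameOrder_map {ι : Type} [LinearOrder ι] (w : List ι) (g g' : ι → ℕ)
    (h : ∀ x ∈ w, ∀ y ∈ w, x < y → g x < g y) (h' : ∀ x ∈ w, ∀ y ∈ w, x < y → g' x < g' y) :
    SameOrder (w.map g) (w.map g') := by
  refine ⟨by simp, ?_⟩
  intro i j hi hj hi' hj'
  simp only [List.length_map] at hi hj
  simp only [List.getElem_map]
  have key : ∀ f : ι → ℕ, (∀ x ∈ w, ∀ y ∈ w, x < y → f x < f y) → (f w[i] < f w[j] ↔ w[i] < w[j]) := by
    intro f hf
    constructor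
    · intro h1
      by_contra h2
      rcases lt_or_eq_of_le (not_lt.mp h2) with h3 | h3
      · have := hf _ (List.getElem_mem hj) _ (List.getElem_mem hi) h3
        omega
      · rw [h3] at h1; exact lt_irrefl _ h1
    · exact hf _ (List.getElem_mem hi) _ (List.getElem_mem hj)
  rw [key g h, key g' h']

/-- the shift by `c` -/
def en (c : ℤ) (w : List ℤ) : List ℕ := w.map (fun x => (x + c).toNat)

theorem en_mono {c : ℤ} {w : List ℤ} (hc : ∀ x ∈ w, 0 < x + c) :
    ∀ x ∈ w, ∀ y ∈ w, x < y → (x + c).toNat < (y + c).toNat := by
  intro x hx y hy hxy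
  have := hc x hx
  have := hc y hy
  omega

theorem isPerm_en {c : ℤ} {w : List ℤ} (hw : w.Nodup) (hc : ∀ x ∈ w, 0 < x + c) :
    IsPerm (en c w) := by
  constructor
  · unfold en
    rw [List.nodup_map_iff_inj_on hw]
    intro x hx y hy hxy
    have := hc x hx
    have := hc y hy
    omega
  · intro a ha
    simp only [en, List.mem_map] at ha
    obtain ⟨x, hx, rfl⟩ := ha
    have := hc x hx
    omega

/-- a number `c` such that all letters plus `c` are positive -/
def cb (w : List ℤ) : ℤ := ub (w.map (fun x => -x))

theorem cb_pos {w : List ℤ} {x : ℤ} (hx : x ∈ w) : 0 < x + cb w := by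
  have := lt_ub (List.mem_map_of_mem (f := fun x : ℤ => -x) hx)
  unfold cb
  omega

/-- the statistic on words of integers -/
def stZ {α : Type} (st : List ℕ → α) (w : List ℤ) : α := st (en (cb w) w)

theorem stZ_eq {α : Type} {st : List ℕ → α} (h : IsStatistic st) {c : ℤ} {w : List ℤ}
    (hw : w.Nodup) (hc : ∀ x ∈ w, 0 < x + c) : stZ st w = st (en c w) := by
  apply h _ _ (isPerm_en hw (fun x hx => cb_pos hx)) (isPerm_en hw hc)
  exact sameOrder_map w _ _ (en_mono (fun x hx => cb_pos hx)) (en_mono hc)

theorem shuf_ncard {π σ : List ℕ} (h1 : IsPerm π) (h2 : IsPerm σ) (h : π.Disjoint σ) {α : Type}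
    [DecidableEq α] (st : List ℕ → α) (v : α) :
    {τ | IsShuffle π σ τ ∧ st τ = v}.ncard = ((shuf π σ).map st).count v := by
  have hnd : (π ++ σ).Nodup := List.nodup_append'.mpr ⟨h1.1, h2.1, h⟩
  have hset : {τ | IsShuffle π σ τ ∧ st τ = v} =
      (((shuf π σ).filter (fun τ => decide (st τ = v))).toFinset : Set (List ℕ)) := by
    ext τ
    simp only [Set.mem_ofPred_eq, List.coe_toFinset, List.mem_filter, decide_eq_true_eq]
    constructor
    · rintro ⟨⟨⟨h3, -⟩, h4, h5, h6⟩, h7⟩
      exact ⟨mem_shuf_of τ π σ hnd h3 h4 h5 h6, h7⟩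
    · rintro ⟨h3, h4⟩
      have hp := perm_of_mem_shuf π σ τ h3
      have hs := sublist_of_mem_shuf π σ τ h3
      refine ⟨⟨⟨hp.nodup_iff.mpr hnd, ?_⟩, by rw [hp.length_eq]; simp, hs.1, hs.2⟩, h4⟩
      intro a ha
      rcases List.mem_append.mp (hp.mem_iff.mp ha) with h5 | h5
      · exact h1.2 a h5
      · exact h2.2 a h5
  rw [hset, Set.ncard_coe_finset, List.toFinset_card_of_nodup ((nodup_shuf π σ hnd).filter _),
    List.count, List.countP_map, List.countP_eq_length_filter]
  congr 1

open Classical in
theorem bic_stZ {α : Type} {st : List ℕ → α} (h1 : IsStatistic st) (h2 : ShuffleCompatible st)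
    (h3 : SubstringCompatible st) : Bic (stZ st) := by
  refine ⟨?_, ?_, ?_⟩
  · intro w f hw hf
    have hwf : (w.map f).Nodup := by
      rw [List.nodup_map_iff_inj_on hw]
      intro x hx y hy hxy
      rcases lt_trichotomy x y with h | h | h
      · have := hf x hx y hy h; omega
      · exact h
      · have := hf y hy x hx h; omega
    apply h1 _ _ (isPerm_en hwf (fun x hx => cb_pos hx)) (isPerm_en hw (fun x hx => cb_pos hx))
    unfold en
    rw [List.map_map]
    apply sameOrder_map w _ _ _ (en_mono (fun x hx => cb_pos hx))
    intro x hx y hy hxy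
    exact en_mono (fun x hx => cb_pos hx) _ (List.mem_map_of_mem hx) _ (List.mem_map_of_mem hy)
      (hf x hx y hy hxy)
  · intro w w' hw hw' hl hst a b
    -- the substring at the positions `a + 1, ..., min (a + b) |w|`
    by_cases hab : a < w.length ∧ 0 < b
    · have hP := isPerm_en hw (fun x hx => cb_pos hx)
      have hP' := isPerm_en hw' (fun x hx => cb_pos hx)
      have key := h3 (en (cb w) w) (en (cb w') w') hP hP' (by simp [en, hl]) hst (a + 1)
        (min (a + b) w.length) (by omega) (by omega) (by simp [en])
      have e1 : min (a + b) w.length + 1 - (a + 1) = min b (w.length - a) := by omega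
      have e2 : ∀ t : List ℤ, t.length = w.length →
          ((en (cb t) t).drop (a + 1 - 1)).take (min b (w.length - a)) =
            en (cb t) ((t.drop a).take b) := by
        intro t ht
        have e3 : (t.drop a).take (min b (w.length - a)) = (t.drop a).take b := by
          by_cases hb : b ≤ w.length - a
          · rw [min_eq_left hb]
          · rw [min_eq_right (by omega), List.take_of_length_le (by simp [ht]),
              List.take_of_length_le (by simp [ht]; omega)]
        unfold en
        rw [← e3, List.map_take, List.map_drop]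
        simp
      rw [e1, e2 w rfl, e2 w' hl.symm] at key
      have hs : ∀ t : List ℤ, ((t.drop a).take b).Sublist t := fun t =>
        (List.take_sublist _ _).trans (List.drop_sublist _ _)
      rw [stZ_eq h1 (c := cb w) (hw.sublist (hs w)) (fun x hx => cb_pos ((hs w).subset hx)),
        stZ_eq h1 (c := cb w') (hw'.sublist (hs w')) (fun x hx => cb_pos ((hs w').subset hx))]
      exact key
    · have e : ∀ t : List ℤ, t.length = w.length → (t.drop a).take b = [] := by
        intro t ht
        by_cases h : a < w.length
        · have : b = 0 := by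
            by_contra h5; exact hab ⟨h, by omega⟩
          subst this
          simp
        · rw [List.drop_of_length_le (by omega)]
          simp
      rw [e w rfl, e w' hl.symm]
  · intro p q p' q' hnd hnd' hlp hlq hstp hstq
    set c := cb ((p ++ q) ++ (p' ++ q')) with hc
    have c1 : ∀ x ∈ p, 0 < x + c := fun x hx => cb_pos (by simp [hx])
    have c2 : ∀ x ∈ q, 0 < x + c := fun x hx => cb_pos (by simp [hx])
    have c3 : ∀ x ∈ p', 0 < x + c := fun x hx => cb_pos (by simp [hx])
    have c4 : ∀ x ∈ q', 0 < x + c := fun x hx => cb_pos (by simp [hx])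
    have np := hnd.sublist (List.sublist_append_left p q)
    have nq := hnd.sublist (List.sublist_append_right p q)
    have np' := hnd'.sublist (List.sublist_append_left p' q')
    have nq' := hnd'.sublist (List.sublist_append_right p' q')
    have hdis : ∀ r s : List ℤ, (∀ x ∈ r, 0 < x + c) → (∀ x ∈ s, 0 < x + c) → (r ++ s).Nodup →
        (en c r).Disjoint (en c s) := by
      intro r s hr hs hrs x hx hx'
      simp only [en, List.mem_map] at hx hx'
      obtain ⟨y, hy, rfl⟩ := hx
      obtain ⟨z, hz, hyz⟩ := hx'
      have k1 := hr y hy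
      have k2 := hs z hz
      have k3 : y = z := by omega
      exact (List.nodup_append.mp hrs).2.2 y hy z hz k3
    have key := h2 (en c p) (en c q) (en c p') (en c q') (isPerm_en np c1) (isPerm_en nq c2)
      (isPerm_en np' c3) (isPerm_en nq' c4) (hdis p q c1 c2 hnd) (hdis p' q' c3 c4 hnd')
      (by simp [en, hlp]) (by simp [en, hlq])
      (by rw [← stZ_eq h1 np c1, ← stZ_eq h1 np' c3]; exact hstp)
      (by rw [← stZ_eq h1 nq c2, ← stZ_eq h1 nq' c4]; exact hstq)
    have hconv : ∀ r s : List ℤ, (∀ x ∈ r, 0 < x + c) → (∀ x ∈ s, 0 < x + c) → (r ++ s).Nodup →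
        (shuf r s).map (stZ st) = (shuf (en c r) (en c s)).map st := by
      intro r s hr hs hrs
      unfold en
      rw [shuf_map, List.map_map]
      apply List.map_congr_left
      intro w hw
      have hp := perm_of_mem_shuf r s w hw
      show stZ st w = st (en c w)
      apply stZ_eq h1 (hp.nodup_iff.mpr hrs)
      intro x hx
      rcases List.mem_append.mp (hp.mem_iff.mp hx) with h | h
      · exact hr x h
      · exact hs x h
    rw [hconv p q c1 c2 hnd, hconv p' q' c3 c4 hnd', List.perm_iff_count]
    intro v
    rw [← shuf_ncard (isPerm_en np c1) (isPerm_en nq c2) (hdis p q c1 c2 hnd),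
      ← shuf_ncard (isPerm_en np' c3) (isPerm_en nq' c4) (hdis p' q' c3 c4 hnd')]
    exact key v

theorem stZ_cast {α : Type} {st : List ℕ → α} (h : IsStatistic st) {π : List ℕ} (hπ : IsPerm π) :
    stZ st (π.map (fun x : ℕ => (x : ℤ))) = st π := by
  have hnd : (π.map (fun x : ℕ => (x : ℤ))).Nodup := hπ.1.map Nat.cast_injective
  apply h _ _ (isPerm_en hnd (fun x hx => cb_pos hx)) hπ
  unfold en
  rw [List.map_map]
  conv =>
    arg 2
    rw [← List.map_id π]
  apply sameOrder_map
  · intro x hx y hy hxy
    exact en_mono (fun x hx => cb_pos hx) _ (List.mem_map_of_mem hx) _ (List.mem_map_of_mem hy)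
      (by simpa using hxy)
  · intro x _ y _ hxy
    exact hxy

/-- a bicompatible statistic which is constant on each length at most five is constant on each
length -/
theorem trivial_of_five {α : Type} {st : List ℕ → α} (h1 : IsStatistic st)
    (h2 : ShuffleCompatible st) (h3 : SubstringCompatible st)
    (h5 : ∀ π σ, IsPerm π → IsPerm σ → π.length = σ.length → π.length ≤ 5 → st π = st σ) :
    ∀ π σ, IsPerm π → IsPerm σ → π.length = σ.length → st π = st σ := by
  classical
  by_contra hcon
  have hex : ∃ n, ∃ π σ : List ℕ, IsPerm π ∧ IsPerm σ ∧ π.length = n ∧ σ.length = n ∧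
      st π ≠ st σ := by
    push Not at hcon
    obtain ⟨π, σ, k1, k2, k3, k4⟩ := hcon
    exact ⟨_, π, σ, k1, k2, rfl, k3.symm, k4⟩
  obtain ⟨π, σ, k1, k2, k3, k4, k5⟩ := Nat.find_spec hex
  have hmin := fun m (hm : m < Nat.find hex) => Nat.find_min hex hm
  set n := Nat.find hex with hn
  have hn6 : 6 ≤ n := by
    by_contra h
    exact k5 (h5 π σ k1 k2 (by omega) (by omega))
  have hB := bic_stZ h1 h2 h3
  have hc : ∀ w w' : List ℤ, w.length = w'.length → w.length < n → w.Nodup → w'.Nodup →
      stZ st w = stZ st w' := by
    intro w w' hl hlt hw hw'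
    by_contra hne
    apply hmin w.length hlt
    exact ⟨en (cb w) w, en (cb w') w', isPerm_en hw (fun x hx => cb_pos hx),
      isPerm_en hw' (fun x hx => cb_pos hx), by simp [en], by simp [en, hl], hne⟩
  have hg := hB.good hc (π.map (fun x : ℕ => (x : ℤ))) (σ.map (fun x : ℕ => (x : ℤ)))
    (by simpa using k3) (by simpa using k4) (k1.1.map Nat.cast_injective)
    (k2.1.map Nat.cast_injective)
    (by rw [stZ_cast h1 k1, stZ_cast h1 k2]; exact k5)
  exact hg.contra hn6

end Pool.Agent.Q258.BC
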