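import Pool.Agent.Q258.BC.Core

/-!
# The mixed second difference and the dichotomy
-/

set_option autoImplicit false

namespace Pool.Agent.Q258.BC

/-- the mixed second difference of a product of two values, one at the first `n` letters and one at the
last `n` letters, in the first and the last letter is zero -/
theorem mixed {n : ℕ} {F : List ℤ → ℚ} (g : Good n F) (hn : 3 ≤ n) (y : List ℤ)
    (hy : y.length = 2 * n - 4) (x x' z z' : ℤ) (h1 : (x :: (y ++ [z])).Nodup)
    (h2 : (x' :: (y ++ [z])).Nodup) (h3 : (x :: (y ++ [z'])).Nodup)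
    (h4 : (x' :: (y ++ [z'])).Nodup) (Q : List ℤ → ℚ)
    (hQ : ∀ w, Q w = F (w.take n) * F (w.drop (n - 2)).reverse) :
    Q (x :: (y ++ [z])) + Q (x' :: (y ++ [z'])) = Q (x' :: (y ++ [z])) + Q (x :: (y ++ [z'])) := by
  obtain ⟨φ, -, hO⟩ := g.mean (by omega)
  set m := 2 * n - 2 with hm
  set Φ : ℚ → ℚ → ℚ := fun a b => a * (φ - (-1) ^ n * (b - φ)) with hΦ
  set K : List ℤ → ℚ := fun w => Φ (F ((w.drop 0).take n)) (F ((w.drop (n - 2)).take n)) with hK
  have hKQ : ∀ w : List ℤ, w.length = m → w.Nodup → K w = Q w := by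
    intro w hl hw
    simp only [hK, hΦ, hQ, List.drop_zero]
    congr 1
    have hl2 : (w.drop (n - 2)).length = n := by simp [hl]; omega
    rw [List.take_of_length_le (by omega)]
    have := orth_reverse hO (by omega) (w.drop (n - 2)) hl2 (hw.sublist (List.drop_sublist _ _))
    linear_combination (-1 : ℚ) * this
  have hQr : ∀ w : List ℤ, w.length = m → Q w.reverse = Q w := by
    intro w hl
    rw [hQ, hQ, List.take_reverse, List.drop_reverse, List.reverse_reverse, hl, mul_comm]
    have e1 : m - (n - 2) = n := by omega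
    have e2 : m - n = n - 2 := by omega
    rw [e1, e2]
  have hlen : ∀ a b : ℤ, (a :: (y ++ [b])).length = m := by
    intro a b; simp [hy]; omega
  -- the terms
  have t1 : ∀ (a a' b : ℤ) (i : ℕ), 0 < i → i < n → (a :: (y ++ [b])).Nodup →
      (a' :: (y ++ [b])).Nodup →
      S K ((a :: (y ++ [b])).take i).reverse ((a :: (y ++ [b])).drop i) =
        S K ((a' :: (y ++ [b])).take i).reverse ((a' :: (y ++ [b])).drop i) := by
    intro a a' b i hi hin hnd hnd'
    obtain ⟨j, rfl⟩ : ∃ j, i = j + 1 := ⟨i - 1, by omega⟩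
    have hp : ∀ w : List ℤ, w.Nodup → ((w.take (j + 1)).reverse ++ w.drop (j + 1)).Nodup := by
      intro w hw
      have : ((w.take (j + 1)).reverse ++ w.drop (j + 1)).Perm w := by
        have h1 : ((w.take (j + 1)).reverse ++ w.drop (j + 1)).Perm
          (w.take (j + 1) ++ w.drop (j + 1)) := (List.reverse_perm _).append_right _
        rwa [List.take_append_drop] at h1
      exact this.nodup_iff.mpr hw
    apply g.sh Φ 0 (n - 2) m (by omega) (by omega)
    · rw [List.length_reverse, List.length_take, List.length_drop, hlen]; omega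
    · simp
    · simp
    · exact hp _ hnd
    · exact hp _ hnd'
    · left
      rw [List.length_reverse, List.length_take, hlen]; omega
    · right; simp
  have t2 : ∀ (a b b' : ℤ) (i : ℕ), n ≤ i → i < m → (a :: (y ++ [b])).Nodup →
      (a :: (y ++ [b'])).Nodup →
      S K ((a :: (y ++ [b])).take i).reverse ((a :: (y ++ [b])).drop i) =
        S K ((a :: (y ++ [b'])).take i).reverse ((a :: (y ++ [b'])).drop i) := by
    intro a b b' i hi him hnd hnd'
    have hp : ∀ w : List ℤ, w.Nodup → ((w.take i).reverse ++ w.drop i).Nodup := by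
      intro w hw
      have : ((w.take i).reverse ++ w.drop i).Perm w := by
        have h1 : ((w.take i).reverse ++ w.drop i).Perm
          (w.take i ++ w.drop i) := (List.reverse_perm _).append_right _
        rwa [List.take_append_drop] at h1
      exact this.nodup_iff.mpr hw
    apply g.sh Φ 0 (n - 2) m (by omega) (by omega)
    · rw [List.length_reverse, List.length_take, List.length_drop, hlen]; omega
    · simp
    · simp
    · exact hp _ hnd
    · exact hp _ hnd'
    · right
      have e : ∀ c : ℤ, a :: (y ++ [c]) = (a :: y) ++ [c] := by intro c; simp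
      rw [e, e, List.take_append_of_le_length, List.take_append_of_le_length]
      · simp [hy]; omega
      · simp [hy]; omega
    · left
      rw [List.length_drop, hlen]; omega
  have hs : ∀ a b : ℤ, ∑ i ∈ Finset.range (m + 1), (-1 : ℚ) ^ i *
      S K ((a :: (y ++ [b])).take i).reverse ((a :: (y ++ [b])).drop i) = 0 := by
    intro a b
    have := alt_sum K (a :: (y ++ [b])) (by simp)
    rwa [hlen] at this
  have hsum : ∑ i ∈ Finset.range (m + 1), (-1 : ℚ) ^ i *
      (S K ((x :: (y ++ [z])).take i).reverse ((x :: (y ++ [z])).drop i) +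
      S K ((x' :: (y ++ [z'])).take i).reverse ((x' :: (y ++ [z'])).drop i) -
      S K ((x' :: (y ++ [z])).take i).reverse ((x' :: (y ++ [z])).drop i) -
      S K ((x :: (y ++ [z'])).take i).reverse ((x :: (y ++ [z'])).drop i)) = 0 := by
    simp only [mul_sub, mul_add, Finset.sum_sub_distrib, Finset.sum_add_distrib, hs]
    ring
  obtain ⟨k, hk⟩ : ∃ k, m = k + 1 := ⟨m - 1, by omega⟩
  rw [Finset.sum_range_succ, hk, Finset.sum_range_succ', ← hk] at hsum
  have hmid : ∑ i ∈ Finset.range k, (-1 : ℚ) ^ (i + 1) *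
      (S K ((x :: (y ++ [z])).take (i + 1)).reverse ((x :: (y ++ [z])).drop (i + 1)) +
      S K ((x' :: (y ++ [z'])).take (i + 1)).reverse ((x' :: (y ++ [z'])).drop (i + 1)) -
      S K ((x' :: (y ++ [z])).take (i + 1)).reverse ((x' :: (y ++ [z])).drop (i + 1)) -
      S K ((x :: (y ++ [z'])).take (i + 1)).reverse ((x :: (y ++ [z'])).drop (i + 1))) = 0 := by
    apply Finset.sum_eq_zero
    intro i hi
    rw [Finset.mem_range] at hi
    by_cases hin : i + 1 < n
    · rw [t1 x x' z (i + 1) (by omega) hin h1 h2, t1 x x' z' (i + 1) (by omega) hin h3 h4]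
      ring
    · rw [t2 x z z' (i + 1) (by omega) (by omega) h1 h3,
        t2 x' z z' (i + 1) (by omega) (by omega) h2 h4]
      ring
  rw [hmid] at hsum
  have hm2 : (-1 : ℚ) ^ m = 1 := by
    rw [hm]
    have : 2 * n - 2 = 2 * (n - 1) := by omega
    rw [this, pow_mul]
    simp
  have et : ∀ a b : ℤ, (a :: (y ++ [b])).take m = a :: (y ++ [b]) := fun a b =>
    List.take_of_length_le (by rw [hlen])
  have ed : ∀ a b : ℤ, (a :: (y ++ [b])).drop m = [] := fun a b =>
    List.drop_of_length_le (by rw [hlen])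
  have hrev : ∀ a b : ℤ, (a :: (y ++ [b])).Nodup → K (a :: (y ++ [b])).reverse =
      Q (a :: (y ++ [b])) := by
    intro a b hnd
    rw [hKQ _ (by rw [List.length_reverse, hlen]) (List.nodup_reverse.mpr hnd), hQr _ (hlen a b)]
  simp only [et, ed, S_nil_right, List.take_zero, List.drop_zero, List.reverse_nil, S_nil_left,
    hm2, pow_zero, one_mul] at hsum
  rw [hrev _ _ h1, hrev _ _ h2, hrev _ _ h3, hrev _ _ h4, hKQ _ (hlen _ _) h1,
    hKQ _ (hlen _ _) h2, hKQ _ (hlen _ _) h3, hKQ _ (hlen _ _) h4] at hsum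
  linarith

/-! ### glueing -/

/-- the map which moves the letters of a word, `p < q` are the images of the two common letters -/
def gl (K e p q l : ℤ) : ℤ :=
  if l < p then 2 * l + e else if l = p then 4 * K else if l < q then 8 * K + 2 * l + e else
    if l = q then 12 * K else 16 * K + 2 * l + e

theorem gl_lt {K e p q l l' : ℤ} (he : 0 ≤ e) (he1 : e ≤ 1) (h1 : -K < l) (h2 : l' < K)
    (h : l < l') : gl K e p q l < gl K e p q l' := by
  unfold gl
  split_ifs <;> omega

theorem gl_left {K e p q : ℤ} : gl K e p q p = 4 * K := by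
  unfold gl
  simp

theorem gl_right {K e p q : ℤ} (h : p < q) : gl K e p q q = 12 * K := by
  unfold gl
  split_ifs <;> omega

theorem gl_ne {K p q p' q' l l' : ℤ} (_ : -K < l) (_ : l < K) (_ : -K < l') (_ : l' < K)
    (h1 : l' ≠ p') (h2 : l' ≠ q') : gl K 0 p q l ≠ gl K 1 p' q' l' := by
  unfold gl
  split_ifs <;> omega

theorem glue {n : ℕ} {F : List ℤ → ℚ} (g : Good n F) (hn : 3 ≤ n) (u v : List ℤ)
    (p q x x' p' q' z z' : ℤ) (hu : u.length + 3 = n) (hv : v.length + 3 = n) (hpq : p < q)
    (hpq' : p' < q') (h1 : (x :: (u ++ [p, q])).Nodup) (h2 : (x' :: (u ++ [p, q])).Nodup)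
    (h3 : (z :: (v ++ [q', p'])).Nodup) (h4 : (z' :: (v ++ [q', p'])).Nodup) :
    F (x :: (u ++ [p, q])) = F (x' :: (u ++ [p, q])) ∨
      F (z :: (v ++ [q', p'])) = F (z' :: (v ++ [q', p'])) := by
  obtain ⟨K, hKa⟩ : ∃ K : ℤ, ∀ l ∈ x :: x' :: z :: z' :: p :: q :: p' :: q' :: (u ++ v),
      -K < l ∧ l < K := by
    refine ⟨ub ((x :: x' :: z :: z' :: p :: q :: p' :: q' :: (u ++ v)).map (fun l => |l|)), ?_⟩
    intro l hl
    have := lt_ub (List.mem_map_of_mem (f := fun l : ℤ => |l|) hl)
    rw [← abs_lt]
    exact this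
  have hKu : ∀ l ∈ u, -K < l ∧ l < K := fun l hl => hKa l (by simp [hl])
  have hKv : ∀ l ∈ v, -K < l ∧ l < K := fun l hl => hKa l (by simp [hl])
  have hKx := hKa x (by simp)
  have hKx' := hKa x' (by simp)
  have hKz := hKa z (by simp)
  have hKz' := hKa z' (by simp)
  have hKp := hKa p (by simp)
  have hKq := hKa q (by simp)
  have hKp' := hKa p' (by simp)
  have hKq' := hKa q' (by simp)
  clear hKa
  set σ : ℤ → ℤ := gl K 0 p q with hσ
  set τ : ℤ → ℤ := gl K 1 p' q' with hτ
  set y : List ℤ := (u ++ [p, q]).map σ ++ (v.map τ).reverse with hy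
  have hword : ∀ a b : ℤ, σ a :: (y ++ [τ b]) =
      (a :: (u ++ [p, q])).map σ ++ ((b :: v).map τ).reverse := by
    intro a b
    simp [hy]
  have hA : ∀ a : ℤ, -K < a → a < K → (a :: (u ++ [p, q])).Nodup →
      F ((a :: (u ++ [p, q])).map σ) = F (a :: (u ++ [p, q])) := by
    intro a ha1 ha2 hnd
    apply g.inv _ _ _ hnd
    · intro l hl l' hl' hll
      have k1 : -K < l := by
        simp only [List.mem_cons, List.mem_append, List.not_mem_nil, or_false] at hl
        rcases hl with rfl | hl | rfl | rfl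
        · exact ha1
        · exact (hKu l hl).1
        · exact hKp.1
        · exact hKq.1
      have k2 : l' < K := by
        simp only [List.mem_cons, List.mem_append, List.not_mem_nil, or_false] at hl'
        rcases hl' with rfl | hl' | rfl | rfl
        · exact ha2
        · exact (hKu l' hl').2
        · exact hKp.2
        · exact hKq.2
      exact gl_lt le_rfl (by norm_num) k1 k2 hll
    · simp; omega
  have hB : ∀ b : ℤ, -K < b → b < K → (b :: (v ++ [q', p'])).Nodup →
      F ((b :: (v ++ [q', p'])).map τ) = F (b :: (v ++ [q', p'])) := by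
    intro a ha1 ha2 hnd
    apply g.inv _ _ _ hnd
    · intro l hl l' hl' hll
      have k1 : -K < l := by
        simp only [List.mem_cons, List.mem_append, List.not_mem_nil, or_false] at hl
        rcases hl with rfl | hl | rfl | rfl
        · exact ha1
        · exact (hKv l hl).1
        · exact hKq'.1
        · exact hKp'.1
      have k2 : l' < K := by
        simp only [List.mem_cons, List.mem_append, List.not_mem_nil, or_false] at hl'
        rcases hl' with rfl | hl' | rfl | rfl
        · exact ha2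
        · exact (hKv l' hl').2
        · exact hKq'.2
        · exact hKp'.2
      exact gl_lt (by norm_num) le_rfl k1 k2 hll
    · simp; omega
  have hnd : ∀ a b : ℤ, -K < a → a < K → -K < b → b < K → (a :: (u ++ [p, q])).Nodup →
      (b :: (v ++ [q', p'])).Nodup → (σ a :: (y ++ [τ b])).Nodup := by
    intro a b ha1 ha2 hb1 hb2 hnd hnd'
    rw [hword, List.nodup_append]
    have hKl : ∀ l ∈ a :: (u ++ [p, q]), -K < l ∧ l < K := by
      intro l hl
      simp only [List.mem_cons, List.mem_append, List.not_mem_nil, or_false] at hl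
      rcases hl with rfl | hl | rfl | rfl
      · exact ⟨ha1, ha2⟩
      · exact hKu l hl
      · exact hKp
      · exact hKq
    have hKl' : ∀ l ∈ b :: v, -K < l ∧ l < K := by
      intro l hl
      simp only [List.mem_cons] at hl
      rcases hl with rfl | hl
      · exact ⟨hb1, hb2⟩
      · exact hKv l hl
    refine ⟨?_, ?_, ?_⟩
    · rw [List.nodup_map_iff_inj_on hnd]
      intro l hl l' hl' hll
      rcases lt_trichotomy l l' with h | h | h
      · have := gl_lt (p := p) (q := q) (le_refl (0 : ℤ)) (by norm_num) (hKl l hl).1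
          (hKl l' hl').2 h
        rw [← hσ] at this
        omega
      · exact h
      · have := gl_lt (p := p) (q := q) (le_refl (0 : ℤ)) (by norm_num) (hKl l' hl').1
          (hKl l hl).2 h
        rw [← hσ] at this
        omega
    · rw [List.nodup_reverse]
      have hnd2 : (b :: v).Nodup := by
        have : (b :: (v ++ [q', p'])) = (b :: v) ++ [q', p'] := by simp
        rw [this] at hnd'
        exact (List.nodup_append.mp hnd').1
      rw [List.nodup_map_iff_inj_on hnd2]
      intro l hl l' hl' hll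
      rcases lt_trichotomy l l' with h | h | h
      · have := gl_lt (p := p') (q := q') (by norm_num : (0 : ℤ) ≤ 1) (by norm_num) (hKl' l hl).1
          (hKl' l' hl').2 h
        rw [← hτ] at this
        omega
      · exact h
      · have := gl_lt (p := p') (q := q') (by norm_num : (0 : ℤ) ≤ 1) (by norm_num) (hKl' l' hl').1
          (hKl' l hl).2 h
        rw [← hτ] at this
        omega
    · intro s hs t ht
      rw [List.mem_map] at hs
      rw [List.mem_reverse, List.mem_map] at ht
      obtain ⟨l, hl, rfl⟩ := hs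
      obtain ⟨l', hl', rfl⟩ := ht
      have h5 : (b :: (v ++ [q', p'])) = (b :: v) ++ [q', p'] := by simp
      rw [h5, List.nodup_append] at hnd'
      have h6 := hnd'.2.2 l' hl'
      exact gl_ne (hKl l hl).1 (hKl l hl).2 (hKl' l' hl').1 (hKl' l' hl').2
        (h6 p' (by simp)) (h6 q' (by simp))
  have key := mixed g hn y (by simp [hy]; omega) (σ x) (σ x') (τ z) (τ z')
    (hnd x z hKx.1 hKx.2 hKz.1 hKz.2 h1 h3) (hnd x' z hKx'.1 hKx'.2 hKz.1 hKz.2 h2 h3)
    (hnd x z' hKx.1 hKx.2 hKz'.1 hKz'.2 h1 h4) (hnd x' z' hKx'.1 hKx'.2 hKz'.1 hKz'.2 h2 h4)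
    (fun w => F (w.take n) * F (w.drop (n - 2)).reverse) (fun _ => rfl)
  have hQ : ∀ a b : ℤ, -K < a → a < K → -K < b → b < K → (a :: (u ++ [p, q])).Nodup →
      (b :: (v ++ [q', p'])).Nodup →
      F ((σ a :: (y ++ [τ b])).take n) * F ((σ a :: (y ++ [τ b])).drop (n - 2)).reverse =
      F (a :: (u ++ [p, q])) * F (b :: (v ++ [q', p'])) := by
    intro a b ha1 ha2 hb1 hb2 hna hnb
    have e1 : (σ a :: (y ++ [τ b])).take n = (a :: (u ++ [p, q])).map σ := by
      rw [hword]
      apply List.take_left'
      simp; omega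
    have e2 : ((σ a :: (y ++ [τ b])).drop (n - 2)).reverse = (b :: (v ++ [q', p'])).map τ := by
      have e3 : σ a :: (y ++ [τ b]) =
          (a :: u).map σ ++ ([4 * K, 12 * K] ++ ((b :: v).map τ).reverse) := by
        rw [hword]
        have e4 : σ p = 4 * K := gl_left
        have e5 : σ q = 12 * K := gl_right hpq
        simp [e4, e5]
      rw [e3, List.drop_left' (by simp; omega)]
      have e4 : τ p' = 4 * K := gl_left
      have e5 : τ q' = 12 * K := gl_right hpq'
      simp [e4, e5]
    rw [e1, e2, hA a ha1 ha2 hna, hB b hb1 hb2 hnb]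
  rw [hQ x z hKx.1 hKx.2 hKz.1 hKz.2 h1 h3, hQ x' z hKx'.1 hKx'.2 hKz.1 hKz.2 h2 h3,
    hQ x z' hKx.1 hKx.2 hKz'.1 hKz'.2 h1 h4, hQ x' z' hKx'.1 hKx'.2 hKz'.1 hKz'.2 h2 h4] at key
  have : (F (x :: (u ++ [p, q])) - F (x' :: (u ++ [p, q]))) *
      (F (z :: (v ++ [q', p'])) - F (z' :: (v ++ [q', p']))) = 0 := by linarith
  rcases mul_eq_zero.mp this with h | h
  · left; linarith
  · right; linarith

/-- `F` does not depend on the first letter if the word ends with an ascent -/
def Asc (n : ℕ) (F : List ℤ → ℚ) : Prop := ∀ (u : List ℤ) (p q x x' : ℤ), u.length + 3 = n →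
  p < q → (x :: (u ++ [p, q])).Nodup → (x' :: (u ++ [p, q])).Nodup →
  F (x :: (u ++ [p, q])) = F (x' :: (u ++ [p, q]))

theorem dichotomy {n : ℕ} {F : List ℤ → ℚ} (g : Good n F) (hn : 3 ≤ n) :
    Asc n F ∨ Asc n (fun w => F (w.map (fun x => -x))) := by
  by_cases h : Asc n F
  · exact Or.inl h
  · right
    unfold Asc at h
    push Not at h
    obtain ⟨u, p, q, x, x', hu, hpq, h1, h2, hne⟩ := h
    intro v a b z z' hv hab h3 h4
    have k3 : ((-z) :: (v.map (fun x => -x) ++ [-a, -b])).Nodup := by
      have := h3.map neg_injective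
      simpa using this
    have k4 : ((-z') :: (v.map (fun x => -x) ++ [-a, -b])).Nodup := by
      have := h4.map neg_injective
      simpa using this
    have := (glue g hn u (v.map (fun x => -x)) p q x x' (-b) (-a) (-z) (-z') hu (by simpa using hv)
      hpq (by omega) h1 h2 k3 k4).resolve_left hne
    simpa using this

end Pool.Agent.Q258.BC
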